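import Pool.Agent.Helper54.GE.NDa

set_option autoImplicit false
set_option linter.unusedVariables false
set_option linter.unusedSectionVars false

/-!
Gale duality of cubic fourfolds: the statement of the existence of a nondegenerate point in normal
coordinates.
-/

namespace Pool.Agent.Helper54.GE

variable (D : Dat)

/-- the pairing of a point `v` with a triple of columns `b` and a triple of numbers `l` -/
noncomputable def pair (v : Fin 6 → ℂ) (b : Fin 3 → Fin 3 → ℂ) (l : Fin 3 → ℂ) : ℂ :=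
  (∑ i, B0 v i * b 0 i) + (∑ i, B1 D v i * b 1 i) + (∑ i, B2 D v i * b 2 i) +
    (v 3 * l 0 + ev ℂ D.l1 v * l 1 + ev ℂ D.l2 v * l 2)

/-- the matrix of the products of the columns is lower triangular, with diagonal entries minus the
products of the linear forms -/
structure Tri (v : Fin 6 → ℂ) (b : Fin 3 → Fin 3 → ℂ) (l : Fin 3 → ℂ) : Prop where
  t01 : ∑ i, B0 v i * b 1 i = 0
  t02 : ∑ i, B0 v i * b 2 i = 0
  t12 : ∑ i, B1 D v i * b 2 i = 0
  t00 : ∑ i, B0 v i * b 0 i = - (v 3 * l 0)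
  t11 : ∑ i, B1 D v i * b 1 i = - (ev ℂ D.l1 v * l 1)
  t22 : ∑ i, B2 D v i * b 2 i = - (ev ℂ D.l2 v * l 2)

/-- there is a nondegenerate point -/
def Core : Prop :=
  ∃ (z : Fin 6 → ℂ) (b : Fin 3 → Fin 3 → ℂ) (l : Fin 3 → ℂ), z ≠ 0 ∧ l ≠ 0 ∧
    dt (B0 z) (B1 D z) (B2 D z) + z 3 * ev ℂ D.l1 z * ev ℂ D.l2 z = 0 ∧
    dt (b 0) (b 1) (b 2) - l 0 * l 1 * l 2 = 0 ∧
    (∀ v, pair D v b l = 0) ∧ Tri D z b l ∧
    (∀ ζ, Tri D ζ b l → ∃ s : ℂ, ζ = s • z) ∧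
    (∀ (b' : Fin 3 → Fin 3 → ℂ) (l' : Fin 3 → ℂ), (∀ v, pair D v b' l' = 0) → Tri D z b' l' →
      ∃ s : ℂ, b' = s • b ∧ l' = s • l)

end Pool.Agent.Helper54.GE
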