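import Pool.Agent.Helper54.GE.NDg

set_option autoImplicit false
set_option linter.unusedVariables false
set_option linter.unusedSectionVars false

/-!
Gale duality of cubic fourfolds: nondegenerate points, last part (the dual point and the
uniqueness).
-/

namespace Pool.Agent.Helper54.GE

open MvPolynomial Matrix Module

variable {D : Dat}

/-- the scalar product -/
def sp (x y : Fin 3 → ℂ) : ℂ := x 0 * y 0 + x 1 * y 1 + x 2 * y 2

theorem sum_sp (x y : Fin 3 → ℂ) : ∑ i, x i * y i = sp x y := by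
  rw [Fin.sum_univ_three]; rfl

theorem sp_add (x y z : Fin 3 → ℂ) : sp (x + y) z = sp x z + sp y z := by
  simp only [sp, Pi.add_apply]; ring

theorem sp_smul (c : ℂ) (x z : Fin 3 → ℂ) : sp (c • x) z = c * sp x z := by
  simp only [sp, Pi.smul_apply, smul_eq_mul]; ring

theorem sp_add_right (x y z : Fin 3 → ℂ) : sp x (y + z) = sp x y + sp x z := by
  simp only [sp, Pi.add_apply]; ring

theorem sp_smul_right (c : ℂ) (x z : Fin 3 → ℂ) : sp x (c • z) = c * sp x z := by
  simp only [sp, Pi.smul_apply, smul_eq_mul]; ring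

theorem pair_eq (v : Fin 6 → ℂ) (b : Fin 3 → Fin 3 → ℂ) (l : Fin 3 → ℂ) :
    pair D v b l = sp (B0 v) (b 0) + sp (B1 D v) (b 1) + sp (B2 D v) (b 2) +
      (v 3 * l 0 + ev ℂ D.l1 v * l 1 + ev ℂ D.l2 v * l 2) := by
  rw [pair, sum_sp, sum_sp, sum_sp]

theorem pair_add (v w : Fin 6 → ℂ) (b : Fin 3 → Fin 3 → ℂ) (l : Fin 3 → ℂ) :
    pair D (v + w) b l = pair D v b l + pair D w b l := by
  simp only [pair_eq, B0_add, B1_add, B2_add, sp_add, map_add, Pi.add_apply]; ring

theorem pair_smul (c : ℂ) (v : Fin 6 → ℂ) (b : Fin 3 → Fin 3 → ℂ) (l : Fin 3 → ℂ) :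
    pair D (c • v) b l = c * pair D v b l := by
  simp only [pair_eq, B0_smul, B1_smul, B2_smul, sp_smul, map_smul, Pi.smul_apply, smul_eq_mul]
  ring

theorem pair_add_right (v : Fin 6 → ℂ) (b b' : Fin 3 → Fin 3 → ℂ) (l l' : Fin 3 → ℂ) :
    pair D v (b + b') (l + l') = pair D v b l + pair D v b' l' := by
  simp only [pair_eq, Pi.add_apply, sp_add_right]; ring

theorem pair_smul_right (c : ℂ) (v : Fin 6 → ℂ) (b : Fin 3 → Fin 3 → ℂ) (l : Fin 3 → ℂ) :
    pair D v (c • b) (c • l) = c * pair D v b l := by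
  simp only [pair_eq, Pi.smul_apply, sp_smul_right, smul_eq_mul]; ring

theorem Tri.add_left {v w : Fin 6 → ℂ} {b : Fin 3 → Fin 3 → ℂ} {l : Fin 3 → ℂ}
    (h : Tri D v b l) (h' : Tri D w b l) : Tri D (v + w) b l := by
  obtain ⟨a1, a2, a3, a4, a5, a6⟩ := h
  obtain ⟨b1, b2, b3, b4, b5, b6⟩ := h'
  rw [sum_sp] at a1 a2 a3 a4 a5 a6 b1 b2 b3 b4 b5 b6
  constructor <;> rw [sum_sp]
  · rw [B0_add, sp_add]; linear_combination a1 + b1
  · rw [B0_add, sp_add]; linear_combination a2 + b2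
  · rw [B1_add, sp_add]; linear_combination a3 + b3
  · rw [B0_add, sp_add, Pi.add_apply]; linear_combination a4 + b4
  · rw [B1_add, sp_add, map_add]; linear_combination a5 + b5
  · rw [B2_add, sp_add, map_add]; linear_combination a6 + b6

theorem Tri.smul_left {v : Fin 6 → ℂ} {b : Fin 3 → Fin 3 → ℂ} {l : Fin 3 → ℂ}
    (h : Tri D v b l) (c : ℂ) : Tri D (c • v) b l := by
  obtain ⟨a1, a2, a3, a4, a5, a6⟩ := h
  rw [sum_sp] at a1 a2 a3 a4 a5 a6
  constructor <;> rw [sum_sp]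
  · rw [B0_smul, sp_smul, a1, mul_zero]
  · rw [B0_smul, sp_smul, a2, mul_zero]
  · rw [B1_smul, sp_smul, a3, mul_zero]
  · rw [B0_smul, sp_smul, Pi.smul_apply, a4, smul_eq_mul]; ring
  · rw [B1_smul, sp_smul, map_smul, a5, smul_eq_mul]; ring
  · rw [B2_smul, sp_smul, map_smul, a6, smul_eq_mul]; ring

theorem Tri.add_right {v : Fin 6 → ℂ} {b b' : Fin 3 → Fin 3 → ℂ} {l l' : Fin 3 → ℂ}
    (h : Tri D v b l) (h' : Tri D v b' l') : Tri D v (b + b') (l + l') := by
  obtain ⟨a1, a2, a3, a4, a5, a6⟩ := h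
  obtain ⟨b1, b2, b3, b4, b5, b6⟩ := h'
  rw [sum_sp] at a1 a2 a3 a4 a5 a6 b1 b2 b3 b4 b5 b6
  constructor <;> rw [sum_sp, Pi.add_apply, sp_add_right] <;> try rw [Pi.add_apply]
  · linear_combination a1 + b1
  · linear_combination a2 + b2
  · linear_combination a3 + b3
  · linear_combination a4 + b4
  · linear_combination a5 + b5
  · linear_combination a6 + b6

theorem Tri.smul_right {v : Fin 6 → ℂ} {b : Fin 3 → Fin 3 → ℂ} {l : Fin 3 → ℂ}
    (h : Tri D v b l) (c : ℂ) : Tri D v (c • b) (c • l) := by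
  obtain ⟨a1, a2, a3, a4, a5, a6⟩ := h
  rw [sum_sp] at a1 a2 a3 a4 a5 a6
  constructor <;> rw [sum_sp, Pi.smul_apply, sp_smul_right] <;> try rw [Pi.smul_apply, smul_eq_mul]
  · rw [a1, mul_zero]
  · rw [a2, mul_zero]
  · rw [a3, mul_zero]
  · rw [a4]; ring
  · rw [a5]; ring
  · rw [a6]; ring

/-- the vector `y₁, y₂` of the second column -/
def b1v (g y : Fin 3 → ℂ) : Fin 3 → ℂ :=
  ![y 2 * g 2, - (y 1 * g 2), y 1 * g 1 - y 2 * g 0]

theorem sp_b1v (g y x : Fin 3 → ℂ) : sp x (b1v g y) =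
    y 1 * (g 1 * x 2 - g 2 * x 1) + y 2 * (g 2 * x 0 - g 0 * x 2) := by
  simp [sp, b1v]; ring

/-- the product with `g` -/
def cr (g x : Fin 3 → ℂ) : Fin 3 → ℂ :=
  ![- (g 1 * x 2 - g 2 * x 1), - (g 2 * x 0 - g 0 * x 2), - (g 0 * x 1 - g 1 * x 0)]

theorem sp_cr (g x y : Fin 3 → ℂ) : sp y (cr g x) = - dt g x y := by
  simp [sp, cr, dt]; ring

theorem dt_cr (g x b0 b1 : Fin 3 → ℂ) :
    dt b0 b1 (cr g x) = - (sp x b1 * sp g b0) + sp g b1 * sp x b0 := by
  simp [sp, cr, dt]; ring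

/-- the second column and the second form as the solution of the transposed system -/
theorem exists_y {g : Fin 3 → ℂ} (hN : (N1 D g).det ≠ 0) (φ : Fin 3 → ℂ) :
    ∃ y : Fin 3 → ℂ, ∀ j, y 0 * ev ℂ D.l1 (bas g j) + sp (B1 D (bas g j)) (b1v g y) = φ j := by
  have hu : IsUnit (N1 D g)ᵀ.det := by
    rw [Matrix.det_transpose]; exact isUnit_iff_ne_zero.mpr hN
  refine ⟨((N1 D g)ᵀ)⁻¹ *ᵥ φ, fun j => ?_⟩
  have h1 : (N1 D g)ᵀ *ᵥ (((N1 D g)ᵀ)⁻¹ *ᵥ φ) = φ := by
    rw [Matrix.mulVec_mulVec, Matrix.mul_nonsing_inv _ hu, Matrix.one_mulVec]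
  set y := ((N1 D g)ᵀ)⁻¹ *ᵥ φ with hy
  have h2 := congrFun h1 j
  rw [Matrix.mulVec, dotProduct, Fin.sum_univ_three] at h2
  simp only [Matrix.transpose_apply, N1, Matrix.of_apply, cond, Matrix.cons_val_zero,
    Matrix.cons_val_one, Matrix.cons_val] at h2
  rw [sp_b1v]
  linear_combination h2

theorem y_inj {g : Fin 3 → ℂ} (hN : (N1 D g).det ≠ 0) (y : Fin 3 → ℂ)
    (h : ∀ j, y 0 * ev ℂ D.l1 (bas g j) + sp (B1 D (bas g j)) (b1v g y) = 0) : y = 0 := by
  by_contra hy
  have h1 : (N1 D g)ᵀ *ᵥ y = 0 := by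
    funext j
    rw [Matrix.mulVec, dotProduct, Fin.sum_univ_three]
    simp only [Matrix.transpose_apply, N1, Matrix.of_apply, cond, Matrix.cons_val_zero,
      Matrix.cons_val_one, Matrix.cons_val, Pi.zero_apply]
    have h2 := h j
    rw [sp_b1v] at h2
    linear_combination h2
  have h3 := Matrix.exists_mulVec_eq_zero_iff.mp ⟨y, hy, h1⟩
  rw [Matrix.det_transpose] at h3
  exact hN h3

theorem sp_bas (g : Fin 3 → ℂ) (y : Fin 3 → ℂ) (s : Fin 3 → ℂ) :
    ∑ j, s j * (y 0 * ev ℂ D.l1 (bas g j) + sp (B1 D (bas g j)) (b1v g y)) =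
      y 0 * ev ℂ D.l1 (om g s) + sp (B1 D (om g s)) (b1v g y) := by
  rw [om_eq, Fin.sum_univ_three]
  simp only [map_add, map_smul, smul_eq_mul, B1_add, B1_smul, sp_add, sp_smul]
  ring

theorem e_sum (v : Fin 6 → ℂ) : v = v 0 • Pi.single 0 1 + v 1 • Pi.single 1 1 +
    v 2 • Pi.single 2 1 + v 3 • Pi.single 3 1 + v 4 • Pi.single 4 1 + v 5 • Pi.single 5 1 := by
  funext i
  fin_cases i <;> simp

/-- **Existence of a nondegenerate point**, from the existence of points on conics. -/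
theorem core_of_iso (hiso : ∀ (Q : Matrix (Fin 3) (Fin 3) ℂ), Q.IsSymm → Q.det ≠ 0 →
      ∀ f : Fin 5 → Fin 3 → ℂ, (∀ i, f i ≠ 0) →
        ∃ s : Fin 3 → ℂ, (∑ i, ∑ j, Q i j * s i * s j) = 0 ∧ ∀ i, ∑ j, f i j * s j ≠ 0)
    (hs : Sm D) (hl1 : D.l1 ≠ 0) (hl2 : D.l2 ≠ 0) : Core D := by
  obtain ⟨g, hg, hb⟩ := exists_g hs hl1 hl2
  have hg2 := hg.g2
  obtain ⟨z, z0, zq, z3, zl1, zl2, ⟨ε, ε0, ε1, ⟨a, εa⟩, εz⟩, ⟨κ, ⟨τ, κ0⟩, κ1, ⟨a', κa⟩, κz⟩⟩ :=
    exists_point hiso hs hg hb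
  -- the second column
  obtain ⟨y, hy⟩ := exists_y hg.detN (fun j => psi D g z (bas g j))
  have hψ : ∀ v : Fin 6 → ℂ, B0 v = v 3 • g →
      y 0 * ev ℂ D.l1 v + sp (B1 D v) (b1v g y) = psi D g z v := by
    intro v hv
    rw [exists_om hv, ← sp_bas, Finset.sum_congr rfl fun j _ => by rw [hy j]]
    rw [om_eq, psi_add_right, psi_add_right, psi_smul_right, psi_smul_right, psi_smul_right,
      Fin.sum_univ_three]
  -- the first column
  let Ψ : (Fin 6 → ℂ) → ℂ := fun v => y 0 * ev ℂ D.l1 v + sp (B1 D v) (b1v g y) - psi D g z v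
  have Ψadd : ∀ v w, Ψ (v + w) = Ψ v + Ψ w := by
    intro v w
    simp only [Ψ, map_add, B1_add, sp_add, psi_add_right]; ring
  have Ψsmul : ∀ (c : ℂ) v, Ψ (c • v) = c * Ψ v := by
    intro c v
    simp only [Ψ, map_smul, B1_smul, sp_smul, psi_smul_right, smul_eq_mul]; ring
  have Ψzero : ∀ v : Fin 6 → ℂ, B0 v = v 3 • g → Ψ v = 0 := by
    intro v hv
    have := hψ v hv
    simp only [Ψ]; linear_combination this
  have Ψ4 : Ψ (Pi.single 4 1) = 0 := Ψzero _ (by
    funext i; fin_cases i <;> simp [B0])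
  have Ψ5 : Ψ (Pi.single 5 1) = 0 := Ψzero _ (by
    funext i; fin_cases i <;> simp [B0])
  set b0 : Fin 3 → ℂ := ![- Ψ (Pi.single 0 1), - Ψ (Pi.single 1 1), - Ψ (Pi.single 2 1)] with hb0
  set l0 : ℂ := - Ψ (Pi.single 3 1) with hl0
  have hΨ : ∀ v, Ψ v = - (sp (B0 v) b0 + v 3 * l0) := by
    intro v
    conv_lhs => rw [e_sum v, Ψadd, Ψadd, Ψadd, Ψadd, Ψadd, Ψsmul, Ψsmul, Ψsmul, Ψsmul, Ψsmul,
      Ψsmul, Ψ4, Ψ5]
    simp only [sp, B0, hb0, hl0, Matrix.cons_val_zero, Matrix.cons_val_one, Matrix.cons_val]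
    ring
  have hgb0 : sp g b0 = - l0 := by
    have h1 : Ψ (bas g 0) = 0 := Ψzero _ (by
      funext i; fin_cases i <;> simp [B0, bas])
    have h2 : B0 (bas g 0) = g := by
      funext i; fin_cases i <;> simp [B0, bas]
    have h3 : bas g 0 3 = 1 := rfl
    rw [hΨ, h2, h3] at h1
    linear_combination -h1
  set E := B1 D z with hE
  set b : Fin 3 → Fin 3 → ℂ := ![b0, b1v g y, cr g E] with hbdef
  set l : Fin 3 → ℂ := ![l0, y 0, - ev ℂ D.l1 z] with hldef
  have hb0' : b 0 = b0 := rfl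
  have hb1' : b 1 = b1v g y := rfl
  have hb2' : b 2 = cr g E := rfl
  have hl0' : l 0 = l0 := rfl
  have hl1' : l 1 = y 0 := rfl
  have hl2' : l 2 = - ev ℂ D.l1 z := rfl
  have hpair : ∀ v, pair D v b l = 0 := by
    intro v
    have h1 := hΨ v
    rw [pair_eq, hb0', hb1', hb2', hl0', hl1', hl2', sp_cr]
    simp only [Ψ, psi] at h1
    linear_combination h1
  have hgb1 : sp g (b1v g y) = 0 := by rw [sp_b1v]; ring
  have hgb2 : sp g (cr g E) = 0 := by rw [sp_cr]; simp only [dt]; ring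
  -- the values of the forms
  have hl1ne : y 0 ≠ 0 := by
    have h1 := hψ ε ε0
    rw [ε1, εa, sp_smul, hgb1] at h1
    intro h2
    apply εz
    rw [← h1, h2]; ring
  have hl0ne : l0 ≠ 0 := by
    have h1 := hΨ κ
    simp only [Ψ] at h1
    rw [κ1, κa, sp_smul, hgb1, κ0, sp_smul, hgb0] at h1
    intro h2
    apply κz
    rw [h2] at h1
    linear_combination -h1
  have hl2ne : - ev ℂ D.l1 z ≠ 0 := neg_ne_zero.mpr zl1
  have zq' : dt g E (B2 D z) + ev ℂ D.l1 z * ev ℂ D.l2 z = 0 := zq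
  have t11 : sp E (b1v g y) = - (ev ℂ D.l1 z * y 0) := by
    have h1 := hψ z z0
    rw [psi_self, zq] at h1
    linear_combination h1
  have hdet : dt b0 (b1v g y) (cr g E) = l0 * y 0 * (- ev ℂ D.l1 z) := by
    rw [dt_cr, t11, hgb1, hgb0]; ring
  have hdetz : dt (B0 z) (B1 D z) (B2 D z) = - (z 3 * ev ℂ D.l1 z * ev ℂ D.l2 z) := by
    have h1 : dt (B0 z) (B1 D z) (B2 D z) = z 3 * dt g E (B2 D z) := by
      rw [z0, hE]; simp only [dt, Pi.smul_apply, smul_eq_mul]; ring
    rw [h1]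
    linear_combination z 3 * zq'
  have htri : Tri D z b l := by
    constructor <;> rw [sum_sp]
    · rw [hb1', z0, sp_smul, hgb1, mul_zero]
    · rw [hb2', z0, sp_smul, hgb2, mul_zero]
    · rw [hb2', sp_cr, hE]; simp only [dt]; ring
    · rw [hb0', hl0', z0, sp_smul, hgb0]; ring
    · rw [hb1', hl1']; exact t11
    · rw [hb2', hl2', sp_cr]; linear_combination -zq'
  have hzne : z ≠ 0 := by
    rintro rfl
    exact z3 rfl
  refine ⟨z, b, l, hzne, fun h => hl0ne (congrFun h 0), ?_, ?_, hpair, htri, ?_, ?_⟩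
  · rw [hdetz]; ring
  · rw [hb0', hb1', hb2', hl0', hl1', hl2', hdet]; ring
  · -- uniqueness of `z`
    intro ζ hζ
    have hdet0 : dt (b 0) (b 1) (b 2) ≠ 0 := by
      rw [hb0', hb1', hb2', hdet]
      exact mul_ne_zero (mul_ne_zero hl0ne hl1ne) hl2ne
    refine ⟨ev ℂ D.l1 ζ / ev ℂ D.l1 z, ?_⟩
    set ζ' := ζ + (- (ev ℂ D.l1 ζ / ev ℂ D.l1 z)) • z with hζ'
    have hT : Tri D ζ' b l := hζ.add_left (htri.smul_left _)
    have hl : ev ℂ D.l1 ζ' = 0 := by
      rw [hζ', map_add, map_smul, smul_eq_mul]; field_simp; ring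
    obtain ⟨c1, c2, c3, c4, c5, c6⟩ := hT
    rw [sum_sp] at c1 c2 c3 c4 c5 c6
    rw [hl, zero_mul, neg_zero] at c5
    -- `b₀(ζ') = l₀(ζ') g`
    have d0 : B0 ζ' = ζ' 3 • g := by
      have h1 : B0 ζ' + (- ζ' 3) • g = 0 := by
        refine eq_zero_of_dt hdet0 ?_ ?_ ?_ <;> rw [sum_sp, sp_add, sp_smul]
        · rw [c4, hb0', hgb0, hl0']; ring
        · rw [c1, hb1', hgb1]; ring
        · rw [c2, hb2', hgb2]; ring
      rw [neg_smul] at h1
      exact add_neg_eq_zero.mp h1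
    have d1 : B1 D ζ' = (- (sp (B1 D ζ') b0 / l0)) • g := by
      have h1 : B1 D ζ' + (sp (B1 D ζ') b0 / l0) • g = 0 := by
        refine eq_zero_of_dt hdet0 ?_ ?_ ?_ <;> rw [sum_sp, sp_add, sp_smul]
        · rw [hb0', hgb0]; field_simp; ring
        · rw [c5, hb1', hgb1]; ring
        · rw [c3, hb2', hgb2]; ring
      rw [neg_smul]
      exact eq_neg_of_add_eq_zero_left h1
    have d2 : cond D g ζ' = 0 := by
      funext i
      fin_cases i
      · exact hl
      · simp only [cond, Fin.mk_one, Matrix.cons_val_one, Matrix.cons_val_zero, Pi.zero_apply]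
        rw [d1]; simp only [Pi.smul_apply, smul_eq_mul]; ring
      · simp only [cond, Fin.reduceFinMk, Matrix.cons_val, Pi.zero_apply]
        rw [d1]; simp only [Pi.smul_apply, smul_eq_mul]; ring
    have d3 : ζ' = 0 := by
      rw [exists_om d0] at d2 ⊢
      rw [cond_inj hg.detN d2]
      funext i; fin_cases i <;> simp [om]
    rw [hζ', neg_smul] at d3
    exact add_neg_eq_zero.mp d3
  · -- uniqueness of the dual point
    intro b' l' hp hT
    set c := l' 2 / l 2 with hc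
    set b'' : Fin 3 → Fin 3 → ℂ := b' + (- c) • b with hb''
    set l'' : Fin 3 → ℂ := l' + (- c) • l with hl''
    have hT'' : Tri D z b'' l'' := hT.add_right (htri.smul_right _)
    have hp'' : ∀ v, pair D v b'' l'' = 0 := by
      intro v
      rw [hb'', hl'', pair_add_right, pair_smul_right, hp, hpair]; ring
    have e2 : l'' 2 = 0 := by
      have h2 : l 2 ≠ 0 := hl2ne
      simp only [hl'', hc, Pi.add_apply, Pi.smul_apply, smul_eq_mul]
      field_simp; ring
    obtain ⟨c1, c2, c3, c4, c5, c6⟩ := hT''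
    rw [sum_sp] at c1 c2 c3 c4 c5 c6
    rw [e2, mul_zero, neg_zero] at c6
    have hdz : dt (B0 z) (B1 D z) (B2 D z) ≠ 0 := by
      rw [hdetz]
      exact neg_ne_zero.mpr (mul_ne_zero (mul_ne_zero z3 zl1) zl2)
    have spc : ∀ x y : Fin 3 → ℂ, sp x y = sp y x := by intro x y; simp only [sp]; ring
    have f2 : b'' 2 = 0 := by
      refine eq_zero_of_dt hdz ?_ ?_ ?_ <;> rw [sum_sp, spc]
      · exact c2
      · exact c3
      · exact c6
    have f1 : sp g (b'' 1) = 0 := by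
      rw [z0, sp_smul] at c1
      exact (mul_eq_zero.mp c1).resolve_left z3
    have f0 : sp g (b'' 0) = - l'' 0 := by
      rw [z0, sp_smul] at c4
      have : z 3 * (sp g (b'' 0) + l'' 0) = 0 := by linear_combination c4
      have := (mul_eq_zero.mp this).resolve_left z3
      linear_combination this
    -- the second column
    have g1 : ∀ v : Fin 6 → ℂ, B0 v = v 3 • g →
        sp (B1 D v) (b'' 1) + ev ℂ D.l1 v * l'' 1 = 0 := by
      intro v hv
      have h1 := hp'' v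
      rw [pair_eq, f2, e2, hv, sp_smul, f0] at h1
      have h2 : sp (B2 D v) 0 = 0 := by simp [sp]
      rw [h2] at h1
      linear_combination h1
    set y' : Fin 3 → ℂ := ![l'' 1, - (b'' 1 1 / g 2), b'' 1 0 / g 2] with hy'
    have hb1 : b'' 1 = b1v g y' := by
      have h1 := f1
      rw [sp] at h1
      funext i
      fin_cases i
      · simp only [b1v, hy', Fin.zero_eta, Matrix.cons_val_zero, Matrix.cons_val_one,
          Matrix.cons_val]
        field_simp
      · simp only [b1v, hy', Fin.mk_one, Matrix.cons_val_zero, Matrix.cons_val_one,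
          Matrix.cons_val]
        field_simp
      · simp only [b1v, hy', Fin.reduceFinMk, Matrix.cons_val_zero, Matrix.cons_val_one,
          Matrix.cons_val]
        field_simp; linear_combination h1
    have hy0 : y' = 0 := by
      apply y_inj hg.detN
      intro j
      have h1 := g1 (bas g j) (by
        fin_cases j <;> (funext i; fin_cases i <;> simp [B0, bas]))
      rw [← hb1]
      have h2 : y' 0 = l'' 1 := rfl
      rw [h2]; linear_combination h1
    have l1z : l'' 1 = 0 := by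
      have : y' 0 = 0 := congrFun hy0 0
      exact this
    have b1z : b'' 1 = 0 := by
      rw [hb1, hy0]; funext i; fin_cases i <;> simp [b1v]
    -- the first column
    have g0 : ∀ v : Fin 6 → ℂ, sp (B0 v) (b'' 0) + v 3 * l'' 0 = 0 := by
      intro v
      have h1 := hp'' v
      rw [pair_eq, f2, e2, b1z, l1z] at h1
      have h2 : sp (B2 D v) 0 = 0 := by simp [sp]
      have h3 : sp (B1 D v) 0 = 0 := by simp [sp]
      rw [h2, h3] at h1
      linear_combination h1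
    have l0z : l'' 0 = 0 := by
      have := g0 (Pi.single 3 1)
      simpa [sp, B0] using this
    have b0z : b'' 0 = 0 := by
      funext i
      fin_cases i
      · have := g0 (Pi.single 0 1)
        simpa [sp, B0] using this
      · have := g0 (Pi.single 1 1)
        simpa [sp, B0] using this
      · have := g0 (Pi.single 2 1)
        simpa [sp, B0] using this
    refine ⟨c, ?_, ?_⟩
    · have h1 : b'' = 0 := by
        funext j
        fin_cases j
        · exact b0z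
        · exact b1z
        · exact f2
      rw [hb'', neg_smul] at h1
      exact add_neg_eq_zero.mp h1
    · have h1 : l'' = 0 := by
        funext j
        fin_cases j
        · exact l0z
        · exact l1z
        · exact e2
      rw [hl'', neg_smul] at h1
      exact add_neg_eq_zero.mp h1

end Pool.Agent.Helper54.GE
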