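import Pool.Agent.Helper54.GE.NDh
import Pool.Agent.Helper80.GE.Iso
import Pool.Agent.Helper69.GE.NeZero
import Pool.Agent.Helper15.GE.Corr

set_option autoImplicit false
set_option linter.unusedVariables false
set_option linter.unusedSectionVars false

/-!
Gale duality of cubic fourfolds: the nondegenerate point, and the final form of the duality.
-/

namespace Pool.Agent.Helper54.GE

open MvPolynomial Matrix Module Pool.Agent.Helper16 Pool.Agent.Helper15.GE

/-- the linear form with given coefficients, as a polynomial -/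
noncomputable def lp (c : Fin 6 → ℂ) : MvPolynomial (Fin 6) ℂ := ∑ m, C (c m) * X m

theorem lp_hom (c : Fin 6 → ℂ) : (lp c).IsHomogeneous 1 := by
  refine IsHomogeneous.sum _ _ _ fun m _ => ?_
  have := (isHomogeneous_C (Fin 6) (c m)).mul (isHomogeneous_X ℂ m)
  simpa using this

theorem eval_lp (c x : Fin 6 → ℂ) : eval x (lp c) = ev ℂ c x := by
  rw [ev_complex, lp, map_sum]
  refine Finset.sum_congr rfl fun m _ => ?_
  rw [map_mul, eval_C, eval_X]

/-- the linear forms of a smooth cubic are not zero -/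
theorem Sm.ne_zero {D : Dat} (hs : Sm D) : D.l1 ≠ 0 ∧ D.l2 ≠ 0 := by
  let M : Matrix (Fin 3) (Fin 3) (MvPolynomial (Fin 6) ℂ) := Matrix.of fun i j =>
    ![X (Fin.castLE (by decide) i), lp (D.b1 i), lp (D.b2 i)] j
  have hM : ∀ i j, (M i j).IsHomogeneous 1 := by
    intro i j
    fin_cases j
    · exact isHomogeneous_X _ _
    · exact lp_hom _
    · exact lp_hom _
  obtain ⟨x, s, t, hx, hst, h0, h1⟩ := Pool.Agent.Helper69.GE.exists_rank_one hM
  have x0 : x 0 = 0 := by have := h0 0; simpa [M] using this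
  have x1 : x 1 = 0 := by have := h0 1; simpa [M] using this
  have x2 : x 2 = 0 := by have := h0 2; simpa [M] using this
  have h2 : ∀ i, s * B1 D x i + t * B2 D x i = 0 := by
    intro i
    have h3 := h1 i
    have e1 : eval x (M i 1) = B1 D x i := eval_lp _ _
    have e2 : eval x (M i 2) = B2 D x i := eval_lp _ _
    rw [e1, e2] at h3
    exact h3
  have hmin : ∀ i j, B1 D x i * B2 D x j - B1 D x j * B2 D x i = 0 := by
    intro i j
    rcases hst with hs' | ht
    · apply mul_left_cancel₀ hs'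
      linear_combination (B2 D x j) * h2 i - (B2 D x i) * h2 j
    · apply mul_left_cancel₀ ht
      linear_combination (B1 D x i) * h2 j - (B1 D x j) * h2 i
  obtain ⟨v, hv⟩ := hs x hx
  have hdF : dF D x v = v 3 * ev ℂ D.l1 x * ev ℂ D.l2 x + x 3 * ev ℂ D.l1 v * ev ℂ D.l2 x +
      x 3 * ev ℂ D.l1 x * ev ℂ D.l2 v := by
    simp only [dF, dt, B0, x0, x1, x2, Matrix.cons_val_zero, Matrix.cons_val_one, Matrix.cons_val]
    linear_combination (v 0) * hmin 1 2 + (v 1) * hmin 2 0 + (v 2) * hmin 0 1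
  rw [hdF] at hv
  constructor
  · intro h
    apply hv
    have e : ∀ y : Fin 6 → ℂ, ev ℂ D.l1 y = 0 := by intro y; rw [h, ev_complex]; simp
    rw [e, e]; ring
  · intro h
    apply hv
    have e : ∀ y : Fin 6 → ℂ, ev ℂ D.l2 y = 0 := by intro y; rw [h, ev_complex]; simp
    rw [e, e]; ring

/-- **Existence of a nondegenerate point.** -/
theorem core (D : Dat) (hs : Sm D) : Core D :=
  core_of_iso (fun Q hQ hd f hf => Pool.Agent.Helper80.GE.exists_iso Q hQ hd f hf) hs
    hs.ne_zero.1 hs.ne_zero.2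

variable {B B' : Matrix (Fin 3) (Fin 3) (MvPolynomial (Fin 6) ℂ)}
  {l l' : Fin 3 → MvPolynomial (Fin 6) ℂ}

/-- **Gale duality of smooth cubic fourfolds.** -/
theorem gale_smooth (h : Lin B l) (h' : Lin B' l') (hd : Dual B B' l l')
    (hs : Smooth (cubicP B l)) (hs' : Smooth (cubicM B' l'))
    (hind : LinearIndependent ℂ ![B 0 0, B 1 0, B 2 0, l 0])
    (hR : Nonempty (FractionRing (MvPolynomial (Fin 5) ℂ ⧸ Ideal.span {dh (cubicM B' l')}) ≃ₐ[ℂ]
      FractionRing (MvPolynomial (Fin 4) ℂ))) :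
    Nonempty (FractionRing (MvPolynomial (Fin 5) ℂ ⧸ Ideal.span {dh (cubicP B l)}) ≃ₐ[ℂ]
      FractionRing (MvPolynomial (Fin 4) ℂ)) :=
  gale_of_smooth core h h' hd hs hs' hind hR

end Pool.Agent.Helper54.GE
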