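import Pool.Agent.Helper29.OS.Plane
import Pool.Agent.Helper89.GC.Final
import Pool.Agent.Helper34.GE.Final
import Pool.Agent.Helper15.GE.Birat

set_option autoImplicit false

namespace Pool.Agent.Helper54.GE.H2

open MvPolynomial Module Pool.Agent.Helper34.GE.Defs

/-- **Gale dual smooth cubic fourfolds are birational.**

`B`, `B'` are `3 × 3` matrices of linear forms in six variables and `l`, `l'` triples of linear
forms, such that the six dimensional spaces of the triples `(B(x), l(x))` and `(B'(x'), l'(x'))` in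
`M₃(ℂ) × ℂ³` are orthogonal, and the cubic fourfolds `X = {det B + l₀ l₁ l₂ = 0}` and
`X' = {det B' - l'₀ l'₁ l'₂ = 0}` are smooth.  Then the function fields of `X` and `X'` are
isomorphic.  In particular `X` is rational in each of the following cases.

* `X'` contains a plane such that the quadric surface bundle of the projection of `X'` from this
  plane, with symmetric matrix `N`, has a rational section.
* `X'` contains a plane such that the discriminant sextic `{det N = 0}` is smooth, and one of its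
  theta characteristics given by `N` and by the curves which split in the double plane branched over
  the sextic is even.
* `X'` has an Eckardt point and, for one of the planes through this point, one of the theta
  characteristics of the discriminant quintic `{det M = 0}` given by `M` and by the curves which
  split in the double plane branched over this quintic and the line `{z₀ = 0}` is even. -/
theorem result
    (B B' : Matrix (Fin 3) (Fin 3) (MvPolynomial (Fin 6) ℂ))
    (l l' : Fin 3 → MvPolynomial (Fin 6) ℂ)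
    (hB : ∀ i j, (B i j).IsHomogeneous 1) (hl : ∀ i, (l i).IsHomogeneous 1)
    (hB' : ∀ i j, (B' i j).IsHomogeneous 1) (hl' : ∀ i, (l' i).IsHomogeneous 1)
    (hd : ∀ x x' : Fin 6 → ℂ, ∑ i, ∑ j, eval x (B i j) * eval x' (B' i j) +
      ∑ i, eval x (l i) * eval x' (l' i) = 0)
    (F F' : MvPolynomial (Fin 6) ℂ) (hF : F = B.det + l 0 * l 1 * l 2)
    (hF' : F' = B'.det - l' 0 * l' 1 * l' 2)
    (hs : ∀ x : Fin 6 → ℂ, x ≠ 0 → ∃ i, eval x (pderiv i F) ≠ 0)
    (hs' : ∀ x : Fin 6 → ℂ, x ≠ 0 → ∃ i, eval x (pderiv i F') ≠ 0) :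
    (Ideal.span {aeval (Fin.cons 1 X : Fin 6 → MvPolynomial (Fin 5) ℂ) F}).IsPrime ∧
    (Ideal.span {aeval (Fin.cons 1 X : Fin 6 → MvPolynomial (Fin 5) ℂ) F'}).IsPrime ∧
    Nonempty (FractionRing (MvPolynomial (Fin 5) ℂ ⧸
        Ideal.span {aeval (Fin.cons 1 X : Fin 6 → MvPolynomial (Fin 5) ℂ) F}) ≃ₐ[ℂ]
      FractionRing (MvPolynomial (Fin 5) ℂ ⧸
        Ideal.span {aeval (Fin.cons 1 X : Fin 6 → MvPolynomial (Fin 5) ℂ) F'})) ∧
    ((∃ w : Basis (Fin 3 ⊕ Fin 3) ℂ (Fin 6 → ℂ),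
        (∃ N, PlaneForm F' w N ∧ (RationalSection N ∨
          (∀ z : Fin 3 → ℂ, z ≠ 0 → eval z N.det = 0 → ∃ i, eval z (pderiv i N.det) ≠ 0) ∧
            EvenTheta N)) ∨
        ∃ M, EckardtForm F' w M ∧ EvenThetaQuintic M) →
      Nonempty (FractionRing (MvPolynomial (Fin 5) ℂ ⧸
          Ideal.span {aeval (Fin.cons 1 X : Fin 6 → MvPolynomial (Fin 5) ℂ) F}) ≃ₐ[ℂ]
        FractionRing (MvPolynomial (Fin 4) ℂ))) := by
  have h : Helper15.GE.Lin B l := ⟨hB, hl⟩
  have h' : Helper15.GE.Lin B' l' := ⟨hB', hl'⟩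
  have hFh : F.IsHomogeneous 3 := by rw [hF]; exact Helper15.GE.cubicP_hom h
  have hFh' : F'.IsHomogeneous 3 := by rw [hF']; exact Helper15.GE.cubicM_hom h'
  have hirr := Helper16.irreducible_dh hFh hs
  have hirr' := Helper16.irreducible_dh hFh' hs'
  obtain ⟨e⟩ : Nonempty (FractionRing (MvPolynomial (Fin 5) ℂ ⧸
        Ideal.span {aeval (Fin.cons 1 X : Fin 6 → MvPolynomial (Fin 5) ℂ) F}) ≃ₐ[ℂ]
      FractionRing (MvPolynomial (Fin 5) ℂ ⧸
        Ideal.span {aeval (Fin.cons 1 X : Fin 6 → MvPolynomial (Fin 5) ℂ) F'})) := by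
    subst hF hF'
    exact Helper15.GE.gale_birational h h' hd hs hs'
  refine ⟨(Ideal.span_singleton_prime hirr.ne_zero).mpr hirr.prime,
    (Ideal.span_singleton_prime hirr'.ne_zero).mpr hirr'.prime, ⟨e⟩, ?_⟩
  rintro ⟨w, ⟨N, ⟨hN, hQ⟩, ⟨v, hv, h0⟩ | ⟨hD, μ, ρ, k, hμN, hsp, hρ, hρh, hev⟩⟩ | ⟨M, hM, hE⟩⟩
  · obtain ⟨f⟩ := (Helper29.OS.rational_of_section F' hFh' hs' w N hN hQ v hv h0).2
    exact ⟨e.trans f⟩
  · obtain ⟨f⟩ := (Helper89.GC.uniform F' hFh' hs' w N hN hQ hD μ ρ hμN hsp hρ k hρh hev).2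
    exact ⟨e.trans f⟩
  · obtain ⟨f⟩ := (Helper34.GE.rational_of_eckardtForm hFh' hs' hM hE).2
    exact ⟨e.trans f⟩

end Pool.Agent.Helper54.GE.H2
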