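import Pool.Agent.Helper16.CommonZero
import Mathlib.LinearAlgebra.Matrix.ToLinearEquiv
import Mathlib.Algebra.MvPolynomial.PDeriv

set_option autoImplicit false
set_option linter.unusedVariables false
set_option linter.unusedSectionVars false

/-!
Gale duality of cubic fourfolds: nondegenerate points, first part.

The cubic `det (b₀, b₁, b₂) + l₀ l₁ l₂` in coordinates in which `b₀ = (z₀, z₁, z₂)` and `l₀ = z₃`.
-/

namespace Pool.Agent.Helper54.GE

open MvPolynomial

/-- the determinant of three vectors -/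
def dt {S : Type*} [CommRing S] (a b c : Fin 3 → S) : S :=
  a 0 * (b 1 * c 2 - b 2 * c 1) + a 1 * (b 2 * c 0 - b 0 * c 2) + a 2 * (b 0 * c 1 - b 1 * c 0)

/-- a complex linear form, over an algebra -/
def ev (S : Type*) [CommRing S] [Algebra ℂ S] (c : Fin 6 → ℂ) : (Fin 6 → S) →ₗ[S] S :=
  ∑ m, algebraMap ℂ S (c m) • LinearMap.proj m

theorem ev_apply {S : Type*} [CommRing S] [Algebra ℂ S] (c : Fin 6 → ℂ) (z : Fin 6 → S) :
    ev S c z = ∑ m, algebraMap ℂ S (c m) * z m := by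
  simp only [ev, LinearMap.sum_apply, LinearMap.smul_apply, LinearMap.proj_apply, smul_eq_mul]

theorem map_ev {S S' : Type*} [CommRing S] [Algebra ℂ S] [CommRing S'] [Algebra ℂ S']
    (f : S →ₐ[ℂ] S') (c : Fin 6 → ℂ) (z : Fin 6 → S) :
    f (ev S c z) = ev S' c (fun m => f (z m)) := by
  simp [ev_apply]

theorem deriv_ev {S : Type*} [CommRing S] [Algebra ℂ S] (d : Derivation ℂ S S)
    (c : Fin 6 → ℂ) (z : Fin 6 → S) : d (ev S c z) = ev S c (fun m => d (z m)) := by
  simp [ev_apply, Derivation.leibniz]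

/-- the data of the other two columns and linear forms -/
structure Dat where
  b1 : Fin 3 → Fin 6 → ℂ
  b2 : Fin 3 → Fin 6 → ℂ
  l1 : Fin 6 → ℂ
  l2 : Fin 6 → ℂ

variable (D : Dat)

section
variable {S : Type*} [CommRing S] [Algebra ℂ S]

/-- the first column -/
def B0 (z : Fin 6 → S) : Fin 3 → S := ![z 0, z 1, z 2]

/-- the second column -/
def B1 (z : Fin 6 → S) : Fin 3 → S := fun i => ev S (D.b1 i) z

/-- the third column -/
def B2 (z : Fin 6 → S) : Fin 3 → S := fun i => ev S (D.b2 i) z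

/-- the derivative of the cubic -/
def dF (k v : Fin 6 → S) : S :=
  dt (B0 v) (B1 D k) (B2 D k) + dt (B0 k) (B1 D v) (B2 D k) + dt (B0 k) (B1 D k) (B2 D v) +
    v 3 * ev S D.l1 k * ev S D.l2 k + k 3 * ev S D.l1 v * ev S D.l2 k +
    k 3 * ev S D.l1 k * ev S D.l2 v

/-- the quadratic form of the conic over `g` -/
def qg (g : Fin 3 → S) (z : Fin 6 → S) : S :=
  dt g (B1 D z) (B2 D z) + ev S D.l1 z * ev S D.l2 z

/-- the polar form -/
def bg (g : Fin 3 → S) (z w : Fin 6 → S) : S :=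
  dt g (B1 D z) (B2 D w) + dt g (B1 D w) (B2 D z) + ev S D.l1 z * ev S D.l2 w +
    ev S D.l1 w * ev S D.l2 z

end

/-- smoothness of the cubic -/
def Sm : Prop := ∀ z : Fin 6 → ℂ, z ≠ 0 → ∃ v : Fin 6 → ℂ, dF D z v ≠ 0

variable {D}

/-- polynomials in three variables -/
abbrev R3 : Type := MvPolynomial (Fin 3) ℂ

theorem exists_eval_ne {k : Fin 6 → R3} (hk : k ≠ 0) :
    ∃ g : Fin 3 → ℂ, (fun m => eval g (k m)) ≠ 0 := by
  obtain ⟨m, hm⟩ := Function.ne_iff.mp hk
  by_contra h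
  push Not at h
  apply hm
  apply MvPolynomial.funext
  intro g
  have := congrFun (h g) m
  simpa using this

theorem eval_ev (g : Fin 3 → ℂ) (c : Fin 6 → ℂ) (k : Fin 6 → R3) :
    eval g (ev R3 c k) = ev ℂ c (fun m => eval g (k m)) := by
  have := map_ev (aeval g : R3 →ₐ[ℂ] ℂ) c k
  simpa [aeval_eq_eval] using this

/-- a point at which `b₀, b₁, l₀, l₁` vanish is zero -/
theorem Sm.zero (hs : Sm D) {z : Fin 6 → ℂ} (h0 : ∀ m : Fin 6, m.1 < 4 → z m = 0)
    (h1 : ∀ i, ev ℂ (D.b1 i) z = 0) (h2 : ev ℂ D.l1 z = 0) : z = 0 := by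
  by_contra hz
  obtain ⟨v, hv⟩ := hs z hz
  apply hv
  have e0 := h0 0 (by decide)
  have e1 := h0 1 (by decide)
  have e2 := h0 2 (by decide)
  have e3 := h0 3 (by decide)
  simp [dF, dt, B0, B1, B2, h1, h2, e0, e1, e2, e3]

/-- a linear form as a polynomial -/
theorem eval_ev6 (x : Fin 6 → ℂ) (c : Fin 6 → ℂ) (k : Fin 6 → MvPolynomial (Fin 6) ℂ) :
    eval x (ev (MvPolynomial (Fin 6) ℂ) c k) = ev ℂ c (fun m => eval x (k m)) := by
  have := map_ev (aeval x : MvPolynomial (Fin 6) ℂ →ₐ[ℂ] ℂ) c k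
  simpa [aeval_eq_eval] using this

/-- the cubic is not contained in the ideal of two linear forms -/
theorem Sm.no_two (hs : Sm D) (c : ℂ) (e n : Fin 3 → ℂ) (m : Fin 6 → ℂ)
    (h : ∀ (z : Fin 6 → ℂ) (i : Fin 3),
      ev ℂ (D.b1 i) z + c * B0 z i = ev ℂ D.l1 z * e i + ev ℂ m z * n i) : False := by
  set P := MvPolynomial (Fin 6) ℂ
  let x : Fin 6 → P := X
  let f : Fin 4 → P := ![ev P D.l1 x, ev P m x,
    dt (B0 x) (fun i => C (e i)) (B2 D x) + x 3 * ev P D.l2 x,
    dt (B0 x) (fun i => C (n i)) (B2 D x)]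
  have hf : ∀ y : Fin 6 → ℂ, (∀ i, eval y (f i) = 0) ↔
      (ev ℂ D.l1 y = 0 ∧ ev ℂ m y = 0 ∧
        dt (B0 y) e (B2 D y) + y 3 * ev ℂ D.l2 y = 0 ∧ dt (B0 y) n (B2 D y) = 0) := by
    intro y
    have hx : (fun m => eval y (x m)) = y := by
      funext m; simp [x]
    have h2 : ∀ u : Fin 3 → ℂ, eval y (dt (B0 x) (fun i => C (u i)) (B2 D x)) =
        dt (B0 y) u (B2 D y) := by
      intro u
      simp only [dt, B0, B2, map_add, map_mul, map_sub, eval_C, eval_ev6, hx,
        Matrix.cons_val_zero, Matrix.cons_val_one, Matrix.cons_val]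
      simp [x]
    constructor
    · intro hy
      have y0 := hy 0
      have y1 := hy 1
      have y2 := hy 2
      have y3 := hy 3
      simp only [f, Matrix.cons_val_zero, Matrix.cons_val_one, Matrix.cons_val] at y0 y1 y2 y3
      rw [eval_ev6, hx] at y0 y1
      rw [map_add, map_mul, h2, eval_ev6, hx] at y2
      rw [h2] at y3
      refine ⟨y0, y1, ?_, y3⟩
      simpa [x] using y2
    · rintro ⟨y0, y1, y2, y3⟩ i
      fin_cases i
      · change eval y (ev P D.l1 x) = 0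
        rw [eval_ev6, hx]; exact y0
      · change eval y (ev P m x) = 0
        rw [eval_ev6, hx]; exact y1
      · simp only [f, Fin.reduceFinMk, Matrix.cons_val]
        rw [map_add, map_mul, h2, eval_ev6, hx]
        simpa [x] using y2
      · simp only [f, Fin.reduceFinMk, Matrix.cons_val]
        rw [h2]; exact y3
  obtain ⟨z, hz0, hz⟩ := Pool.Agent.Helper16.exists_common_zero f
    ((hf 0).mpr (by simp [dt, B0, B2])) (by simp)
  obtain ⟨z1, z2, z3, z4⟩ := (hf z).mp hz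
  obtain ⟨v, hv⟩ := hs z hz0
  apply hv
  have a0 := h z 0
  have a1 := h z 1
  have a2 := h z 2
  have b0 := h v 0
  have b1 := h v 1
  have b2 := h v 2
  simp only [B0, Matrix.cons_val_zero, Matrix.cons_val_one, Matrix.cons_val, z1, z2, zero_mul,
    add_zero] at a0 a1 a2 b0 b1 b2
  have a0' : ev ℂ (D.b1 0) z = - (c * z 0) := by linear_combination a0
  have a1' : ev ℂ (D.b1 1) z = - (c * z 1) := by linear_combination a1
  have a2' : ev ℂ (D.b1 2) z = - (c * z 2) := by linear_combination a2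
  have b0' : ev ℂ (D.b1 0) v = ev ℂ D.l1 v * e 0 + ev ℂ m v * n 0 - c * v 0 := by
    linear_combination b0
  have b1' : ev ℂ (D.b1 1) v = ev ℂ D.l1 v * e 1 + ev ℂ m v * n 1 - c * v 1 := by
    linear_combination b1
  have b2' : ev ℂ (D.b1 2) v = ev ℂ D.l1 v * e 2 + ev ℂ m v * n 2 - c * v 2 := by
    linear_combination b2
  simp only [dt, B0, B2, Matrix.cons_val_zero, Matrix.cons_val_one, Matrix.cons_val] at z3 z4
  simp only [dF, dt, B0, B1, B2, Matrix.cons_val_zero, Matrix.cons_val_one, Matrix.cons_val,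
    a0', a1', a2', b0', b1', b2', z1]
  linear_combination (ev ℂ D.l1 v) * z3 + (ev ℂ m v) * z4

end Pool.Agent.Helper54.GE
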