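import Pool.Agent.Helper54.GE.NDa

set_option autoImplicit false
set_option linter.unusedVariables false
set_option linter.unusedSectionVars false

/-!
Gale duality of cubic fourfolds: nondegenerate points, second part (the linear system over the
polynomial ring has only the zero solution).
-/

namespace Pool.Agent.Helper54.GE

open MvPolynomial Matrix Module

/-- the linear form with given coefficients -/
noncomputable def lin (p : Fin 3 → ℂ) : R3 := ∑ i, C (p i) * X i

theorem eval_lin (p g : Fin 3 → ℂ) : eval g (lin p) = ∑ i, p i * g i := by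
  simp [lin]

theorem lin_ne {p : Fin 3 → ℂ} (hp : p ≠ 0) : lin p ≠ 0 := by
  intro h
  apply hp
  funext i
  have := congrArg (eval (Pi.single i 1)) h
  rw [eval_lin, map_zero] at this
  simpa [Pi.single_apply] using this

theorem lin_add_ne {p : Fin 3 → ℂ} {s : ℂ} (h : lin p + C s = 0) : p = 0 ∧ s = 0 := by
  have h0 : s = 0 := by
    have := congrArg (eval (0 : Fin 3 → ℂ)) h
    rw [map_add, eval_lin, eval_C, map_zero] at this
    simpa using this
  refine ⟨?_, h0⟩
  by_contra hp
  apply lin_ne hp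
  rw [h0, C_0, add_zero] at h
  exact h

/-- two vectors are completed to an invertible matrix -/
theorem exists_third {r r' : Fin 3 → ℂ} (h : LinearIndependent ℂ ![r, r']) :
    ∃ (u u' n w : Fin 3 → ℂ), ∀ d : Fin 3 → ℂ, ∀ i,
      d i = (∑ j, r j * d j) * u i + (∑ j, r' j * d j) * u' i + (∑ j, w j * d j) * n i := by
  have hlt : finrank ℂ (Submodule.span ℂ (Set.range ![r, r'])) < finrank ℂ (Fin 3 → ℂ) := by
    rw [finrank_span_eq_card h]; simp
  obtain ⟨w, hw⟩ : ∃ w, w ∉ Submodule.span ℂ (Set.range ![r, r']) := by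
    by_contra hc
    push Not at hc
    have : Submodule.span ℂ (Set.range ![r, r']) = ⊤ := by
      rw [eq_top_iff]; intro x _; exact hc x
    rw [this, finrank_top] at hlt
    exact lt_irrefl _ hlt
  have hli : LinearIndependent ℂ (Fin.snoc ![r, r'] w : Fin 3 → Fin 3 → ℂ) :=
    linearIndependent_finSnoc.mpr ⟨h, hw⟩
  set N : Matrix (Fin 3) (Fin 3) ℂ := Matrix.of (Fin.snoc ![r, r'] w : Fin 3 → Fin 3 → ℂ) with hN
  have hu : IsUnit N := Matrix.linearIndependent_rows_iff_isUnit.mp hli
  have hdet : IsUnit N.det := (Matrix.isUnit_iff_isUnit_det N).mp hu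
  refine ⟨fun i => N⁻¹ i 0, fun i => N⁻¹ i 1, fun i => N⁻¹ i 2, w, fun d i => ?_⟩
  have h1 : N⁻¹ *ᵥ (N *ᵥ d) = d := by
    rw [Matrix.mulVec_mulVec, Matrix.nonsing_inv_mul _ hdet, Matrix.one_mulVec]
  have h2 := congrFun h1 i
  rw [← h2, Matrix.mulVec, dotProduct, Fin.sum_univ_three]
  have r0 : (N *ᵥ d) 0 = ∑ j, r j * d j := rfl
  have r1 : (N *ᵥ d) 1 = ∑ j, r' j * d j := rfl
  have r2 : (N *ᵥ d) 2 = ∑ j, w j * d j := rfl
  rw [r0, r1, r2]
  ring

/-- the identity of two products of linear functions -/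
theorem prop_of_mul {r r' p p' : Fin 3 → ℂ} {s s' : ℂ} (h : LinearIndependent ℂ ![r, r'])
    (hm : ∀ g : Fin 3 → ℂ, ((∑ j, p j * g j) + s) * (∑ j, r' j * g j) =
      ((∑ j, p' j * g j) + s') * (∑ j, r j * g j)) :
    ∃ c : ℂ, s = 0 ∧ s' = 0 ∧ (∀ i, p i = c * r i) ∧ (∀ i, p' i = c * r' i) := by
  obtain ⟨u, u', n, w, hd⟩ := exists_third h
  have hli := h
  -- the values of the forms at the dual basis
  have key : ∀ (q : Fin 3 → ℂ) (i : Fin 3), q i = (∑ j, q j * u j) * r i +
      (∑ j, q j * u' j) * r' i + (∑ j, q j * n j) * w i := by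
    intro q i
    have h1 := hd (Pi.single i 1)
    simp only [Pi.single_apply, mul_ite, mul_one, mul_zero, Finset.sum_ite_eq',
      Finset.mem_univ, if_true] at h1
    have h2 : q i = ∑ k, q k * (if k = i then 1 else 0) := by simp
    rw [h2]
    have h3 : ∀ k, q k * (if k = i then (1 : ℂ) else 0) =
        (q k * u k) * r i + (q k * u' k) * r' i + (q k * n k) * w i := by
      intro k
      rw [h1 k]; ring
    rw [Finset.sum_congr rfl fun k _ => h3 k, Finset.sum_add_distrib, Finset.sum_add_distrib,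
      ← Finset.sum_mul, ← Finset.sum_mul, ← Finset.sum_mul]
  -- the dual basis
  have hN : ∃ N : Matrix (Fin 3) (Fin 3) ℂ, ∀ i j, (∑ k, ![r, r', w] i k * ![u, u', n] j k) =
      (1 : Matrix (Fin 3) (Fin 3) ℂ) i j := by
    refine ⟨1, ?_⟩
    set A : Matrix (Fin 3) (Fin 3) ℂ := Matrix.of ![r, r', w] with hA
    set B : Matrix (Fin 3) (Fin 3) ℂ := Matrix.of (fun i j => ![u, u', n] j i) with hB
    have h1 : B * A = 1 := by
      ext i j
      have h2 := hd (Pi.single j 1) i
      simp only [Pi.single_apply, mul_ite, mul_one, mul_zero, Finset.sum_ite_eq',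
        Finset.mem_univ, if_true] at h2
      rw [Matrix.mul_apply, Fin.sum_univ_three, Matrix.one_apply, h2]
      simp [hA, hB]; ring
    have h3 : A * B = 1 := mul_eq_one_comm.mp h1
    intro i j
    rw [← h3, Matrix.mul_apply]
    rfl
  obtain ⟨_, hN⟩ := hN
  have e00 : ∑ k, r k * u k = 1 := by simpa using hN 0 0
  have e01 : ∑ k, r k * u' k = 0 := by simpa using hN 0 1
  have e02 : ∑ k, r k * n k = 0 := by simpa using hN 0 2
  have e10 : ∑ k, r' k * u k = 0 := by simpa using hN 1 0
  have e11 : ∑ k, r' k * u' k = 1 := by simpa using hN 1 1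
  have e12 : ∑ k, r' k * n k = 0 := by simpa using hN 1 2
  have comb : ∀ (q : Fin 3 → ℂ) (a b c : ℂ), ∑ j, q j * (a * u j + b * u' j + c * n j) =
      a * (∑ j, q j * u j) + b * (∑ j, q j * u' j) + c * (∑ j, q j * n j) := by
    intro q a b c
    rw [Finset.mul_sum, Finset.mul_sum, Finset.mul_sum, ← Finset.sum_add_distrib,
      ← Finset.sum_add_distrib]
    refine Finset.sum_congr rfl fun j _ => ?_
    ring
  have hm' : ∀ a b c : ℂ, (a * (∑ j, p j * u j) + b * (∑ j, p j * u' j) + c * (∑ j, p j * n j)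
      + s) * b = (a * (∑ j, p' j * u j) + b * (∑ j, p' j * u' j) + c * (∑ j, p' j * n j)
      + s') * a := by
    intro a b c
    have h1 := hm (fun j => a * u j + b * u' j + c * n j)
    rw [comb, comb, comb, comb, e00, e01, e02, e10, e11, e12] at h1
    simpa using h1
  have m1 := hm' 0 1 0
  have m2 := hm' 0 1 1
  have m3 := hm' 0 2 0
  have m4 := hm' 1 0 0
  have m5 := hm' 1 0 1
  have m6 := hm' 2 0 0
  have m7 := hm' 1 1 0
  have f1 : (∑ j, p j * n j) = 0 := by linear_combination m2 - m1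
  have f2 : (∑ j, p j * u' j) = 0 := by linear_combination (1/2) * m3 - m1
  have f3 : s = 0 := by linear_combination m1 - f2
  have f4 : (∑ j, p' j * n j) = 0 := by linear_combination m4 - m5
  have f5 : (∑ j, p' j * u j) = 0 := by linear_combination m4 - (1/2) * m6
  have f6 : s' = 0 := by linear_combination - m4 - f5
  have f7 : (∑ j, p' j * u' j) = (∑ j, p j * u j) := by
    linear_combination -m7 + f2 + f3 - f5 - f6
  refine ⟨∑ j, p j * u j, f3, f6, fun i => ?_, fun i => ?_⟩
  · rw [key p i, f1, f2]; ring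
  · rw [key p' i, f4, f5, f7]; ring

end Pool.Agent.Helper54.GE
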