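import Pool.Agent.Helper54.GE.NDb

set_option autoImplicit false
set_option linter.unusedVariables false
set_option linter.unusedSectionVars false

/-!
Gale duality of cubic fourfolds: nondegenerate points, third part (the linear system over the
polynomial ring has only the zero solution).
-/

namespace Pool.Agent.Helper54.GE

open MvPolynomial Matrix Module

variable {D : Dat}

theorem exists_normal (a b : Fin 3 → ℂ) : ∃ n : Fin 3 → ℂ, n ≠ 0 ∧ ∑ i, n i * a i = 0 ∧
    ∑ i, n i * b i = 0 := by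
  set f : (Fin 3 → ℂ) →ₗ[ℂ] (Fin 2 → ℂ) := Matrix.mulVecLin (Matrix.of ![a, b]) with hf
  have h1 : LinearMap.ker f ≠ ⊥ := by
    intro h
    have h2 := LinearMap.finrank_le_finrank_of_injective (LinearMap.ker_eq_bot.mp h)
    simp at h2
  obtain ⟨n, hn, hn0⟩ := (Submodule.ne_bot_iff _).mp h1
  refine ⟨n, hn0, ?_, ?_⟩
  · have := congrFun (LinearMap.mem_ker.mp hn) 0
    simp only [hf, Matrix.mulVecLin_apply, Matrix.mulVec, dotProduct] at this
    simpa [mul_comm] using this
  · have := congrFun (LinearMap.mem_ker.mp hn) 1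
    simp only [hf, Matrix.mulVecLin_apply, Matrix.mulVec, dotProduct] at this
    simpa [mul_comm] using this

/-- the solution with `k 3 = 0` -/
theorem nd1_zero (hs : Sm D) (k : Fin 6 → R3) (hk : ∀ m : Fin 6, m.1 < 4 → k m = 0)
    (h1 : ev R3 D.l1 k = 0)
    (h2 : ∀ i j, X i * ev R3 (D.b1 j) k = X j * ev R3 (D.b1 i) k) : k = 0 := by
  obtain ⟨n, hn0, hn4, hn5⟩ := exists_normal (fun i => D.b1 i 4) (fun i => D.b1 i 5)
  have h3 : ∑ i, C (n i) * ev R3 (D.b1 i) k = 0 := by
    have e : ∀ i, C (n i) * ev R3 (D.b1 i) k =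
        C (n i * D.b1 i 4) * k 4 + C (n i * D.b1 i 5) * k 5 := by
      intro i
      rw [ev_apply, Fin.sum_univ_six, hk 0 (by decide), hk 1 (by decide), hk 2 (by decide),
        hk 3 (by decide)]
      simp only [C_mul, MvPolynomial.algebraMap_eq]
      ring
    rw [Finset.sum_congr rfl fun i _ => e i, Finset.sum_add_distrib, ← Finset.sum_mul,
      ← Finset.sum_mul, ← map_sum, ← map_sum, hn4, hn5]
    simp
  have h4 : ∀ j, ev R3 (D.b1 j) k = 0 := by
    intro j
    have h5 : lin n * ev R3 (D.b1 j) k = 0 := by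
      have h6 : X j * ∑ i, C (n i) * ev R3 (D.b1 i) k = lin n * ev R3 (D.b1 j) k := by
        rw [lin, Finset.mul_sum, Finset.sum_mul]
        refine Finset.sum_congr rfl fun i _ => ?_
        linear_combination -(C (n i)) * h2 i j
      rw [← h6, h3, mul_zero]
    exact (mul_eq_zero.mp h5).resolve_left (lin_ne hn0)
  by_contra hk0
  obtain ⟨g, hg⟩ := exists_eval_ne hk0
  apply hg
  refine hs.zero (fun m hm => ?_) (fun i => ?_) ?_
  · rw [hk m hm, map_zero]
  · rw [← eval_ev, h4, map_zero]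
  · rw [← eval_ev, h1, map_zero]

/-- the coefficient of the relation given by `(r, t)` -/
def rel (D : Dat) (r : Fin 3 → ℂ) (t : ℂ) (m : Fin 6) : ℂ :=
  - ((∑ i, r i * D.b1 i m) + t * D.l1 m)

theorem rel_apply {S : Type*} [CommRing S] [Algebra ℂ S] {r : Fin 3 → ℂ} {t : ℂ}
    (h4 : rel D r t 4 = 0) (h5 : rel D r t 5 = 0) (z : Fin 6 → S) :
    (∑ i, algebraMap ℂ S (r i) * ev S (D.b1 i) z) + algebraMap ℂ S t * ev S D.l1 z +
      (algebraMap ℂ S (rel D r t 0) * z 0 + algebraMap ℂ S (rel D r t 1) * z 1 +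
        algebraMap ℂ S (rel D r t 2) * z 2 + algebraMap ℂ S (rel D r t 3) * z 3) = 0 := by
  have e1 : (∑ i, algebraMap ℂ S (r i) * ev S (D.b1 i) z) + algebraMap ℂ S t * ev S D.l1 z =
      ∑ m, algebraMap ℂ S (- rel D r t m) * z m := by
    simp only [ev_apply, Finset.mul_sum]
    rw [Finset.sum_comm, ← Finset.sum_add_distrib]
    refine Finset.sum_congr rfl fun m _ => ?_
    rw [rel, neg_neg, map_add, map_sum, map_mul, add_mul, Finset.sum_mul]
    congr 1
    · refine Finset.sum_congr rfl fun i _ => ?_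
      rw [map_mul]; ring
    · ring
  rw [e1, Fin.sum_univ_six, h4, h5]
  simp only [map_neg, map_zero]
  ring

/-- the polynomial of a relation -/
noncomputable def relP (D : Dat) (r : Fin 3 → ℂ) (t : ℂ) : R3 :=
  lin ![rel D r t 0, rel D r t 1, rel D r t 2] + C (rel D r t 3)

theorem rel_k {r : Fin 3 → ℂ} {t : ℂ} (h4 : rel D r t 4 = 0) (h5 : rel D r t 5 = 0)
    (k : Fin 6 → R3) (hk : ∀ i : Fin 3, k (Fin.castLE (by decide) i) = k 3 * X i)
    (h1 : ev R3 D.l1 k = 0) (h2 : ∀ i j, X i * ev R3 (D.b1 j) k = X j * ev R3 (D.b1 i) k)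
    (j : Fin 3) : lin r * ev R3 (D.b1 j) k + X j * k 3 * relP D r t = 0 := by
  have h := rel_apply h4 h5 k
  have k0 : k 0 = k 3 * X 0 := hk 0
  have k1 : k 1 = k 3 * X 1 := hk 1
  have k2 : k 2 = k 3 * X 2 := hk 2
  rw [h1, k0, k1, k2] at h
  have h3 : X j * ∑ i, C (r i) * ev R3 (D.b1 i) k = lin r * ev R3 (D.b1 j) k := by
    rw [lin, Finset.mul_sum, Finset.sum_mul]
    refine Finset.sum_congr rfl fun i _ => ?_
    linear_combination -(C (r i)) * h2 i j
  rw [← h3]
  change (∑ i, C (r i) * ev R3 (D.b1 i) k) + C t * 0 + (C (rel D r t 0) * (k 3 * X 0) +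
    C (rel D r t 1) * (k 3 * X 1) + C (rel D r t 2) * (k 3 * X 2) +
    C (rel D r t 3) * k 3) = 0 at h
  have e : lin ![rel D r t 0, rel D r t 1, rel D r t 2] = C (rel D r t 0) * X 0 +
      C (rel D r t 1) * X 1 + C (rel D r t 2) * X 2 := by
    rw [lin, Fin.sum_univ_three]; rfl
  rw [relP, e]
  linear_combination (X j : R3) * h

/-- two independent relations -/
theorem exists_rel (D : Dat) : ∃ (r r' : Fin 3 → ℂ) (t t' : ℂ),
    LinearIndependent ℂ ![(r, t), (r', t')] ∧ rel D r t 4 = 0 ∧ rel D r t 5 = 0 ∧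
      rel D r' t' 4 = 0 ∧ rel D r' t' 5 = 0 := by
  let f : ((Fin 3 → ℂ) × ℂ) →ₗ[ℂ] (Fin 2 → ℂ) :=
    { toFun := fun q => ![rel D q.1 q.2 4, rel D q.1 q.2 5]
      map_add' := by
        intro x y
        ext i
        fin_cases i <;>
        · simp only [rel, Prod.fst_add, Prod.snd_add, Pi.add_apply, add_mul,
            Finset.sum_add_distrib, Fin.zero_eta, Fin.mk_one, Matrix.cons_val_zero,
            Matrix.cons_val_one]
          ring
      map_smul' := by
        intro c x
        ext i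
        fin_cases i <;>
        · simp only [rel, Prod.smul_fst, Prod.smul_snd, Pi.smul_apply, smul_eq_mul, mul_assoc,
            ← Finset.mul_sum, Fin.zero_eta, Fin.mk_one, Matrix.cons_val_zero,
            Matrix.cons_val_one, RingHom.id_apply]
          ring }
  have h1 : 1 < finrank ℂ (LinearMap.ker f) := by
    have h2 := LinearMap.finrank_range_add_finrank_ker f
    have h3 := (LinearMap.range f).finrank_le
    rw [Module.finrank_prod, Module.finrank_fin_fun, Module.finrank_self] at h2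
    rw [Module.finrank_fin_fun] at h3
    omega
  have hnt : Nontrivial (LinearMap.ker f) := Module.nontrivial_of_finrank_pos (R := ℂ)
    (by omega : 0 < finrank ℂ (LinearMap.ker f))
  obtain ⟨x, hx0⟩ := exists_ne (0 : LinearMap.ker f)
  obtain ⟨y, hxy⟩ := exists_linearIndependent_pair_of_one_lt_finrank h1 hx0
  have hx := LinearMap.mem_ker.mp x.2
  have hy := LinearMap.mem_ker.mp y.2
  refine ⟨x.1.1, y.1.1, x.1.2, y.1.2, ?_, congrFun hx 0, congrFun hx 1, congrFun hy 0,
    congrFun hy 1⟩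
  have h3 := hxy.map' (LinearMap.ker f).subtype (Submodule.ker_subtype _)
  have h4 : (⇑(LinearMap.ker f).subtype ∘ ![x, y]) =
      ![(x.1.1, x.1.2), (y.1.1, y.1.2)] := by
    funext i
    fin_cases i <;> rfl
  rw [h4] at h3
  exact h3

end Pool.Agent.Helper54.GE
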