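import Pool.Agent.Helper54.GE.NDc

set_option autoImplicit false
set_option linter.unusedVariables false
set_option linter.unusedSectionVars false

/-!
Gale duality of cubic fourfolds: nondegenerate points, fourth part (the linear system over the
polynomial ring has only the zero solution).
-/

namespace Pool.Agent.Helper54.GE

open MvPolynomial Matrix Module

variable {D : Dat}

theorem ev_complex (c z : Fin 6 → ℂ) : ev ℂ c z = ∑ m, c m * z m := by
  rw [ev_apply]; rfl

/-- **(ND1)** the linear system has only the zero solution -/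
theorem nd1 (hs : Sm D) (hl1 : D.l1 ≠ 0) (k : Fin 6 → R3)
    (hk : ∀ i : Fin 3, k (Fin.castLE (by decide) i) = k 3 * X i)
    (h1 : ev R3 D.l1 k = 0) (h2 : ∀ i j, X i * ev R3 (D.b1 j) k = X j * ev R3 (D.b1 i) k) :
    k = 0 := by
  by_cases h3 : k 3 = 0
  · refine nd1_zero hs k (fun m hm => ?_) h1 h2
    have k0 : k 0 = k 3 * X 0 := hk 0
    have k1 : k 1 = k 3 * X 1 := hk 1
    have k2 : k 2 = k 3 * X 2 := hk 2
    rw [h3, zero_mul] at k0 k1 k2
    fin_cases m
    · exact k0
    · exact k1
    · exact k2
    · exact h3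
    · exact absurd hm (by decide)
    · exact absurd hm (by decide)
  exfalso
  obtain ⟨r, r', t, t', hli, e4, e5, e4', e5'⟩ := exists_rel D
  have hX : (X 0 : R3) * k 3 ≠ 0 := mul_ne_zero (X_ne_zero 0) h3
  -- the vectors `r`, `r'` are independent
  have hr : LinearIndependent ℂ ![r, r'] := by
    rw [LinearIndependent.pair_iff]
    intro a b hab
    have hab' : ∀ i, a * r i + b * r' i = 0 := fun i => congrFun hab i
    set s := a * t + b * t' with hsdef
    have hrel : ∀ m, rel D 0 s m = a * rel D r t m + b * rel D r' t' m := by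
      intro m
      simp only [rel, Pi.zero_apply, zero_mul, Finset.sum_const_zero, zero_add]
      have : a * (∑ i, r i * D.b1 i m) + b * (∑ i, r' i * D.b1 i m) = 0 := by
        rw [Finset.mul_sum, Finset.mul_sum, ← Finset.sum_add_distrib]
        refine Finset.sum_eq_zero fun i _ => ?_
        linear_combination (D.b1 i m) * hab' i
      linear_combination this - (D.l1 m) * hsdef
    have q4 : rel D 0 s 4 = 0 := by rw [hrel, e4, e4']; ring
    have q5 : rel D 0 s 5 = 0 := by rw [hrel, e5, e5']; ring
    have h5 := rel_k q4 q5 k hk h1 h2 0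
    have h6 : lin (0 : Fin 3 → ℂ) = 0 := by simp [lin]
    rw [h6, zero_mul, zero_add] at h5
    have h7 : relP D 0 s = 0 := (mul_eq_zero.mp h5).resolve_left hX
    obtain ⟨h8, h9⟩ := lin_add_ne h7
    have h10 : ∀ m, rel D 0 s m = 0 := by
      intro m
      fin_cases m
      · exact congrFun h8 0
      · exact congrFun h8 1
      · exact congrFun h8 2
      · exact h9
      · exact q4
      · exact q5
    have h11 : s = 0 := by
      obtain ⟨m, hm⟩ := Function.ne_iff.mp hl1
      have h12 := h10 m
      simp only [rel, Pi.zero_apply, zero_mul, Finset.sum_const_zero, zero_add,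
        neg_eq_zero] at h12
      exact (mul_eq_zero.mp h12).resolve_right hm
    refine (LinearIndependent.pair_iff.mp hli) a b ?_
    ext i
    · simpa using hab' i
    · simpa [hsdef] using h11
  -- the identity of the two products
  have hprod : ∀ g : Fin 3 → ℂ,
      ((∑ j, ![rel D r t 0, rel D r t 1, rel D r t 2] j * g j) + rel D r t 3) *
        (∑ j, r' j * g j) =
      ((∑ j, ![rel D r' t' 0, rel D r' t' 1, rel D r' t' 2] j * g j) + rel D r' t' 3) *
        (∑ j, r j * g j) := by
    intro g
    have a1 := rel_k e4 e5 k hk h1 h2 0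
    have a2 := rel_k e4' e5' k hk h1 h2 0
    have a3 : (X 0 * k 3) * (relP D r t * lin r' - relP D r' t' * lin r) = 0 := by
      linear_combination (lin r') * a1 - (lin r) * a2
    have a4 := sub_eq_zero.mp ((mul_eq_zero.mp a3).resolve_left hX)
    have a5 := congrArg (eval g) a4
    rw [map_mul, map_mul, relP, relP, map_add, map_add, eval_C, eval_C, eval_lin, eval_lin,
      eval_lin, eval_lin] at a5
    exact a5
  obtain ⟨c, s0, s0', hp, hp'⟩ := prop_of_mul hr hprod
  obtain ⟨u, u', n, w, hd⟩ := exists_third hr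
  let m : Fin 6 → ℂ := fun q => ∑ j : Fin 3, w j * (D.b1 j q + if q.1 = j.1 then c else 0)
  have hm : ∀ z : Fin 6 → ℂ, ev ℂ m z = ∑ j, w j * (ev ℂ (D.b1 j) z + c * B0 z j) := by
    intro z
    rw [ev_complex]
    simp only [m, Finset.sum_mul]
    rw [Finset.sum_comm]
    refine Finset.sum_congr rfl fun j _ => ?_
    rw [ev_complex, mul_add, Finset.mul_sum]
    have e1 : w j * (c * B0 z j) = ∑ q : Fin 6, w j * ((if q.1 = j.1 then c else 0) * z q) := by
      rw [← Finset.mul_sum, Fin.sum_univ_six]
      fin_cases j <;> simp [B0]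
    rw [e1, ← Finset.sum_add_distrib]
    refine Finset.sum_congr rfl fun q _ => ?_
    ring
  refine hs.no_two c (fun i => - t * u i - t' * u' i) n m fun z i => ?_
  rw [hm]
  have b1 : ∑ j, r j * (ev ℂ (D.b1 j) z + c * B0 z j) = - t * ev ℂ D.l1 z := by
    have h5 := rel_apply e4 e5 z
    rw [s0] at h5
    have p0 : rel D r t 0 = c * r 0 := hp 0
    have p1 : rel D r t 1 = c * r 1 := hp 1
    have p2 : rel D r t 2 = c * r 2 := hp 2
    rw [p0, p1, p2] at h5
    simp only [Algebra.algebraMap_self, RingHom.id_apply] at h5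
    rw [Fin.sum_univ_three] at h5 ⊢
    simp only [B0, Matrix.cons_val_zero, Matrix.cons_val_one, Matrix.cons_val]
    linear_combination h5
  have b2 : ∑ j, r' j * (ev ℂ (D.b1 j) z + c * B0 z j) = - t' * ev ℂ D.l1 z := by
    have h5 := rel_apply e4' e5' z
    rw [s0'] at h5
    have p0 : rel D r' t' 0 = c * r' 0 := hp' 0
    have p1 : rel D r' t' 1 = c * r' 1 := hp' 1
    have p2 : rel D r' t' 2 = c * r' 2 := hp' 2
    rw [p0, p1, p2] at h5
    simp only [Algebra.algebraMap_self, RingHom.id_apply] at h5
    rw [Fin.sum_univ_three] at h5 ⊢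
    simp only [B0, Matrix.cons_val_zero, Matrix.cons_val_one, Matrix.cons_val]
    linear_combination h5
  have h6 := hd (fun i => ev ℂ (D.b1 i) z + c * B0 z i) i
  rw [b1, b2] at h6
  rw [h6]
  ring

end Pool.Agent.Helper54.GE
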