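import Pool.Agent.Helper54.GE.NDd

set_option autoImplicit false
set_option linter.unusedVariables false
set_option linter.unusedSectionVars false

/-!
Gale duality of cubic fourfolds: nondegenerate points, fifth part (the general conic is
nonsingular).
-/

namespace Pool.Agent.Helper54.GE

open MvPolynomial Matrix Module

variable {D : Dat}

section
variable {S : Type*} [CommRing S] [Algebra ℂ S]

/-- the basis of the space of points over `g` -/
def bas (g : Fin 3 → S) : Fin 3 → Fin 6 → S :=
  ![![g 0, g 1, g 2, 1, 0, 0], ![0, 0, 0, 0, 1, 0], ![0, 0, 0, 0, 0, 1]]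

/-- the point over `g` with given coordinates -/
def om (g s : Fin 3 → S) : Fin 6 → S :=
  ![s 0 * g 0, s 0 * g 1, s 0 * g 2, s 0, s 1, s 2]

theorem om_eq (g s : Fin 3 → S) : om g s = s 0 • bas g 0 + s 1 • bas g 1 + s 2 • bas g 2 := by
  funext i
  fin_cases i <;> simp [om, bas]

theorem B1_add (x y : Fin 6 → S) : B1 D (x + y) = B1 D x + B1 D y := by
  funext i; simp [B1]

theorem B1_smul (c : S) (x : Fin 6 → S) : B1 D (c • x) = c • B1 D x := by
  funext i; simp [B1]

theorem B2_add (x y : Fin 6 → S) : B2 D (x + y) = B2 D x + B2 D y := by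
  funext i; simp [B2]

theorem B2_smul (c : S) (x : Fin 6 → S) : B2 D (c • x) = c • B2 D x := by
  funext i; simp [B2]

theorem bg_add_right (g : Fin 3 → S) (z x y : Fin 6 → S) :
    bg D g z (x + y) = bg D g z x + bg D g z y := by
  simp only [bg, B1_add, B2_add, map_add, dt, Pi.add_apply]
  ring

theorem bg_smul_right (g : Fin 3 → S) (c : S) (z x : Fin 6 → S) :
    bg D g z (c • x) = c * bg D g z x := by
  simp only [bg, B1_smul, B2_smul, map_smul, dt, Pi.smul_apply, smul_eq_mul]
  ring

theorem bg_symm (g : Fin 3 → S) (z x : Fin 6 → S) : bg D g z x = bg D g x z := by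
  simp only [bg]; ring

theorem bg_self (g : Fin 3 → S) (z : Fin 6 → S) : bg D g z z = 2 * qg D g z := by
  simp only [bg, qg]; ring

theorem B0_add (x y : Fin 6 → S) : B0 (x + y) = B0 x + B0 y := by
  funext i
  fin_cases i <;> simp [B0]

theorem B0_smul (c : S) (x : Fin 6 → S) : B0 (c • x) = c • B0 x := by
  funext i
  fin_cases i <;> simp [B0]

theorem dF_add (k x y : Fin 6 → S) : dF D k (x + y) = dF D k x + dF D k y := by
  simp only [dF, B0_add, B1_add, B2_add, map_add, dt, Pi.add_apply]
  ring

theorem dF_smul (k : Fin 6 → S) (c : S) (x : Fin 6 → S) : dF D k (c • x) = c * dF D k x := by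
  simp only [dF, B0_smul, B1_smul, B2_smul, map_smul, dt, Pi.smul_apply, smul_eq_mul]
  ring

/-- the derivative at a point over `g` -/
theorem dF_over (g : Fin 3 → S) (k v : Fin 6 → S) (hk : B0 k = k 3 • g) :
    dF D k v = dt (B0 v) (B1 D k) (B2 D k) + v 3 * ev S D.l1 k * ev S D.l2 k +
      k 3 * bg D g k v := by
  simp only [dF, bg, hk, dt, Pi.smul_apply, smul_eq_mul]
  ring

end

/-- the coordinate vectors -/
noncomputable def ee (i : Fin 6) : Fin 6 → R3 := Pi.single i 1

theorem ee_sum (v : Fin 6 → R3) : v = v 0 • ee 0 + v 1 • ee 1 + v 2 • ee 2 + v 3 • ee 3 +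
    v 4 • ee 4 + v 5 • ee 5 := by
  funext i
  fin_cases i <;> simp [ee]

/-- **(ND2)** the general conic is nonsingular -/
theorem nd2 (hs : Sm D) (s : Fin 3 → R3)
    (h : ∀ i, bg D X (om X s) (bas X i) = 0) : s = 0 := by
  set k : Fin 6 → R3 := om X s with hkdef
  have hk3 : k 3 = s 0 := rfl
  have hB0 : B0 k = k 3 • (X : Fin 3 → R3) := by
    funext i
    fin_cases i <;> simp [B0, hkdef, om]
  -- `q(k) = 0`
  have hq : qg D X k = 0 := by
    have h1 : bg D X k k = 0 := by
      conv_lhs => rw [hkdef, om_eq X s, bg_add_right, bg_add_right, bg_smul_right, bg_smul_right,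
        bg_smul_right, ← om_eq X s, h 0, h 1, h 2]
      simp
    rw [bg_self] at h1
    exact (mul_eq_zero.mp h1).resolve_left two_ne_zero
  -- the derivative of `q(k) = 0`
  have hb : ∀ i : Fin 3, bg D X k (ee (Fin.castLE (by decide) i)) * k 3 +
      dt (Pi.single i 1) (B1 D k) (B2 D k) = 0 := by
    intro i
    set d : Derivation ℂ R3 R3 := pderiv i with hd
    have h1 := congrArg d hq
    rw [map_zero] at h1
    have hX : ∀ j, d (X j) = (Pi.single i 1 : Fin 3 → R3) j := by
      intro j; rw [hd, pderiv_X]
    -- the derivative of `k`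
    set k' : Fin 6 → R3 := fun m => d (k m) with hk'
    have hk'' : k' = d (s 0) • bas X 0 + s 0 • ee (Fin.castLE (by decide) i) + d (s 1) • bas X 1 +
        d (s 2) • bas X 2 := by
      have e0 : k' 0 = s 0 * d (X 0) + X 0 * d (s 0) := by
        change d (s 0 * X 0) = _
        rw [Derivation.leibniz]; rfl
      have e1 : k' 1 = s 0 * d (X 1) + X 1 * d (s 0) := by
        change d (s 0 * X 1) = _
        rw [Derivation.leibniz]; rfl
      have e2 : k' 2 = s 0 * d (X 2) + X 2 * d (s 0) := by
        change d (s 0 * X 2) = _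
        rw [Derivation.leibniz]; rfl
      have e3 : k' 3 = d (s 0) := rfl
      have e4 : k' 4 = d (s 1) := rfl
      have e5 : k' 5 = d (s 2) := rfl
      rw [hX] at e0 e1 e2
      have hee : ∀ (i : Fin 3) (m : Fin 6), ee (Fin.castLE (by decide) i) m =
          if m.1 = i.1 then 1 else 0 := by
        intro i m
        rw [ee, Pi.single_apply]
        congr 1
        rw [eq_iff_iff, Fin.ext_iff]; rfl
      have hes : ∀ (i m : Fin 3), (Pi.single i 1 : Fin 3 → R3) m = if m.1 = i.1 then 1 else 0 := by
        intro i m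
        rw [Pi.single_apply]
        congr 1
        rw [eq_iff_iff, Fin.ext_iff]
      have hi := i.2
      funext m
      simp only [Pi.add_apply, Pi.smul_apply, smul_eq_mul, hee]
      fin_cases m
      · refine e0.trans ?_
        rw [hes]
        change s 0 * (if (0 : ℕ) = i.1 then 1 else 0) + X 0 * d (s 0) = _
        simp only [bas, Fin.zero_eta, Matrix.cons_val_zero, Matrix.cons_val_one, Matrix.cons_val]
        ring
      · refine e1.trans ?_
        rw [hes]
        change s 0 * (if (1 : ℕ) = i.1 then 1 else 0) + X 1 * d (s 0) = _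
        simp only [bas, Fin.mk_one, Matrix.cons_val_zero, Matrix.cons_val_one, Matrix.cons_val]
        ring
      · refine e2.trans ?_
        rw [hes]
        change s 0 * (if (2 : ℕ) = i.1 then 1 else 0) + X 2 * d (s 0) = _
        simp only [bas, Fin.reduceFinMk, Matrix.cons_val_zero, Matrix.cons_val_one,
          Matrix.cons_val]
        ring
      · refine e3.trans ?_
        rw [if_neg (by simp; omega)]
        simp [bas]
      · refine e4.trans ?_
        rw [if_neg (by simp; omega)]
        simp [bas]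
      · refine e5.trans ?_
        rw [if_neg (by simp; omega)]
        simp [bas]
    have h2 : d (qg D X k) = dt (Pi.single i 1) (B1 D k) (B2 D k) + bg D X k k' := by
      simp only [qg, bg, dt, B1, B2, map_add, map_sub, Derivation.leibniz, deriv_ev, smul_eq_mul,
        hX]
      ring
    rw [h2, hk'', bg_add_right, bg_add_right, bg_add_right, bg_smul_right, bg_smul_right,
      bg_smul_right, bg_smul_right, h 0, h 1, h 2] at h1
    rw [hk3]
    linear_combination h1
  have hb0 : bg D X k (ee 0) * k 3 + dt (Pi.single 0 1) (B1 D k) (B2 D k) = 0 := hb 0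
  have hb1 : bg D X k (ee 1) * k 3 + dt (Pi.single 1 1) (B1 D k) (B2 D k) = 0 := hb 1
  have hb2 : bg D X k (ee 2) * k 3 + dt (Pi.single 2 1) (B1 D k) (B2 D k) = 0 := hb 2
  -- the derivative of the cubic at `k` is zero
  have h0 : dF D k (ee 0) = 0 := by
    rw [dF_over X k _ hB0]
    have e : B0 (ee 0) = Pi.single 0 1 := by
      funext i; fin_cases i <;> simp [B0, ee]
    have e3 : (ee 0) 3 = 0 := by simp [ee]
    rw [e, e3]
    linear_combination hb0
  have h1 : dF D k (ee 1) = 0 := by
    rw [dF_over X k _ hB0]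
    have e : B0 (ee 1) = Pi.single 1 1 := by
      funext i; fin_cases i <;> simp [B0, ee]
    have e3 : (ee 1) 3 = 0 := by simp [ee]
    rw [e, e3]
    linear_combination hb1
  have h2 : dF D k (ee 2) = 0 := by
    rw [dF_over X k _ hB0]
    have e : B0 (ee 2) = Pi.single 2 1 := by
      funext i; fin_cases i <;> simp [B0, ee]
    have e3 : (ee 2) 3 = 0 := by simp [ee]
    rw [e, e3]
    linear_combination hb2
  have h4 : dF D k (ee 4) = 0 := by
    have e0 : ee 4 = bas X 1 := by
      funext i; fin_cases i <;> simp [bas, ee]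
    rw [dF_over X k _ hB0, e0, h 1]
    simp [B0, bas, dt]
  have h5 : dF D k (ee 5) = 0 := by
    have e0 : ee 5 = bas X 2 := by
      funext i; fin_cases i <;> simp [bas, ee]
    rw [dF_over X k _ hB0, e0, h 2]
    simp [B0, bas, dt]
  have h3 : dF D k (ee 3) = 0 := by
    have e1 : dF D k (bas X 0) = 0 := by
      rw [dF_over X k _ hB0, h 0]
      have e2 : B0 (bas (X : Fin 3 → R3) 0) = X := by
        funext i; fin_cases i <;> simp [B0, bas]
      have e3 : bas (X : Fin 3 → R3) 0 3 = 1 := rfl
      rw [e2, e3]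
      have := hq
      rw [qg] at this
      linear_combination this
    have e2 : bas (X : Fin 3 → R3) 0 =
        (X 0 : R3) • ee 0 + (X 1 : R3) • ee 1 + (X 2 : R3) • ee 2 + ee 3 := by
      funext i; fin_cases i <;> simp [bas, ee]
    rw [e2, dF_add, dF_add, dF_add, dF_smul, dF_smul, dF_smul, h0, h1, h2] at e1
    linear_combination e1
  have hall : ∀ v : Fin 6 → R3, dF D k v = 0 := by
    intro v
    rw [ee_sum v, dF_add, dF_add, dF_add, dF_add, dF_add, dF_smul, dF_smul, dF_smul, dF_smul,
      dF_smul, dF_smul, h0, h1, h2, h3, h4, h5]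
    ring
  have hk0 : k = 0 := by
    by_contra hk0
    obtain ⟨g, hg⟩ := exists_eval_ne hk0
    obtain ⟨v, hv⟩ := hs _ hg
    apply hv
    have h6 := congrArg (eval g) (hall (fun m => (C (v m) : R3)))
    rw [map_zero] at h6
    rw [← h6]
    simp only [dF, dt, B0, B1, B2, map_add, map_sub, map_mul, eval_ev, eval_C,
      Matrix.cons_val_zero, Matrix.cons_val_one, Matrix.cons_val]
  funext i
  fin_cases i
  · exact congrFun hk0 3
  · exact congrFun hk0 4
  · exact congrFun hk0 5

end Pool.Agent.Helper54.GE
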