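import Pool.Agent.Helper54.GE.NDe
import Pool.Agent.Helper54.GE.CoreDef

set_option autoImplicit false
set_option linter.unusedVariables false
set_option linter.unusedSectionVars false

/-!
Gale duality of cubic fourfolds: nondegenerate points, sixth part (the choice of the general `g`).
-/

namespace Pool.Agent.Helper54.GE

open MvPolynomial Matrix Module

variable (D : Dat)

section
variable {S : Type*} [CommRing S] [Algebra ℂ S]

/-- the three conditions `l₁ = 0`, `g × b₁ = 0` -/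
def cond (g : Fin 3 → S) (z : Fin 6 → S) : Fin 3 → S :=
  ![ev S D.l1 z, g 1 * B1 D z 2 - g 2 * B1 D z 1, g 2 * B1 D z 0 - g 0 * B1 D z 2]

/-- the matrix of the three conditions on the points over `g` -/
def N1 (g : Fin 3 → S) : Matrix (Fin 3) (Fin 3) S := Matrix.of fun r c => cond D g (bas g c) r

/-- the matrix of the conic over `g` -/
def Q1 (g : Fin 3 → S) : Matrix (Fin 3) (Fin 3) S := Matrix.of fun i j => bg D g (bas g i) (bas g j)

variable {D}

theorem cond_add (g : Fin 3 → S) (x y : Fin 6 → S) : cond D g (x + y) = cond D g x + cond D g y := by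
  funext i
  fin_cases i
  · simp [cond]
  · simp [cond, B1_add]; ring
  · simp [cond, B1_add]; ring

theorem cond_smul (g : Fin 3 → S) (c : S) (x : Fin 6 → S) : cond D g (c • x) = c • cond D g x := by
  funext i
  fin_cases i
  · simp [cond]
  · simp [cond, B1_smul]; ring
  · simp [cond, B1_smul]; ring

theorem N1_mulVec (g s : Fin 3 → S) : N1 D g *ᵥ s = cond D g (om g s) := by
  rw [om_eq, cond_add, cond_add, cond_smul, cond_smul, cond_smul]
  funext i
  rw [Matrix.mulVec, dotProduct, Fin.sum_univ_three]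
  simp only [N1, Matrix.of_apply, Pi.add_apply, Pi.smul_apply, smul_eq_mul]
  ring

theorem Q1_mulVec (g s : Fin 3 → S) (i : Fin 3) : (Q1 D g *ᵥ s) i = bg D g (om g s) (bas g i) := by
  rw [bg_symm, om_eq, bg_add_right, bg_add_right, bg_smul_right, bg_smul_right, bg_smul_right,
    Matrix.mulVec, dotProduct, Fin.sum_univ_three]
  simp only [Q1, Matrix.of_apply]
  ring

theorem om_zero_iff {g s : Fin 3 → S} (h : om g s = 0) : s = 0 := by
  funext i
  fin_cases i
  · exact congrFun h 3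
  · exact congrFun h 4
  · exact congrFun h 5

end

variable {D}

theorem map_B1 (g : Fin 3 → ℂ) (k : Fin 6 → R3) (i : Fin 3) :
    eval g (B1 D k i) = B1 D (fun m => eval g (k m)) i := eval_ev g _ k

theorem map_B2 (g : Fin 3 → ℂ) (k : Fin 6 → R3) (i : Fin 3) :
    eval g (B2 D k i) = B2 D (fun m => eval g (k m)) i := eval_ev g _ k

theorem map_bas (g : Fin 3 → ℂ) (i : Fin 3) :
    (fun m => eval g (bas (X : Fin 3 → R3) i m)) = bas g i := by
  funext m
  fin_cases i <;> fin_cases m <;> simp [bas]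

theorem map_N1 (g : Fin 3 → ℂ) : eval g (N1 D (X : Fin 3 → R3)).det = (N1 D g).det := by
  rw [RingHom.map_det]
  congr 1
  ext r c
  rw [RingHom.mapMatrix_apply, Matrix.map_apply, N1, N1, Matrix.of_apply, Matrix.of_apply,
    ← map_bas g c]
  fin_cases r <;> simp [cond, eval_ev, map_B1]

theorem map_Q1 (g : Fin 3 → ℂ) : eval g (Q1 D (X : Fin 3 → R3)).det = (Q1 D g).det := by
  rw [RingHom.map_det]
  congr 1
  ext r c
  rw [RingHom.mapMatrix_apply, Matrix.map_apply, Q1, Q1, Matrix.of_apply, Matrix.of_apply,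
    ← map_bas g c, ← map_bas g r]
  simp only [bg, dt, map_add, map_sub, map_mul, eval_ev, map_B1, map_B2, eval_X]

theorem detN_ne (hs : Sm D) (hl1 : D.l1 ≠ 0) : (N1 D (X : Fin 3 → R3)).det ≠ 0 := by
  intro h0
  obtain ⟨s, hs0, h1⟩ := Matrix.exists_mulVec_eq_zero_iff.mpr h0
  rw [N1_mulVec] at h1
  apply hs0
  apply om_zero_iff (g := (X : Fin 3 → R3))
  set k := om (X : Fin 3 → R3) s with hk
  have c0 : ev R3 D.l1 k = 0 := congrFun h1 0
  have c1 : X 1 * B1 D k 2 - X 2 * B1 D k 1 = 0 := congrFun h1 1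
  have c2 : X 2 * B1 D k 0 - X 0 * B1 D k 2 = 0 := congrFun h1 2
  have c3 : X 0 * B1 D k 1 - X 1 * B1 D k 0 = 0 := by
    have h2 : (X 2 : R3) * (X 0 * B1 D k 1 - X 1 * B1 D k 0) = 0 := by
      linear_combination -(X 0 : R3) * c1 - (X 1 : R3) * c2
    exact (mul_eq_zero.mp h2).resolve_left (X_ne_zero 2)
  refine nd1 hs hl1 k (fun i => ?_) c0 (fun i j => ?_)
  · fin_cases i <;> rfl
  · change X i * B1 D k j = X j * B1 D k i
    fin_cases i <;> fin_cases j <;>
      simp only [Fin.zero_eta, Fin.mk_one, Fin.reduceFinMk]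
    · linear_combination c3
    · linear_combination -c2
    · linear_combination -c3
    · linear_combination c1
    · linear_combination c2
    · linear_combination -c1

theorem detQ_ne (hs : Sm D) : (Q1 D (X : Fin 3 → R3)).det ≠ 0 := by
  intro h0
  obtain ⟨s, hs0, h1⟩ := Matrix.exists_mulVec_eq_zero_iff.mpr h0
  apply hs0
  refine nd2 hs s fun i => ?_
  rw [← Q1_mulVec, h1]; rfl

/-- the linear form `l₂` on the points over `g` -/
theorem exists_l2 (h : D.l2 ≠ 0) : ∃ P : R3, P ≠ 0 ∧ ∀ g : Fin 3 → ℂ, eval g P ≠ 0 →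
    ∃ i, ev ℂ D.l2 (bas g i) ≠ 0 := by
  by_cases h4 : D.l2 4 = 0
  · by_cases h5 : D.l2 5 = 0
    · refine ⟨lin ![D.l2 0, D.l2 1, D.l2 2] + C (D.l2 3), fun h0 => h ?_, fun g hg => ⟨0, ?_⟩⟩
      · obtain ⟨h1, h2⟩ := lin_add_ne h0
        funext m
        fin_cases m
        · exact congrFun h1 0
        · exact congrFun h1 1
        · exact congrFun h1 2
        · exact h2
        · exact h4
        · exact h5
      · rw [map_add, eval_lin, eval_C] at hg
        rw [ev_complex, Fin.sum_univ_six]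
        rw [Fin.sum_univ_three] at hg
        simpa [bas] using hg
    · refine ⟨1, one_ne_zero, fun g _ => ⟨2, ?_⟩⟩
      rw [ev_complex, Fin.sum_univ_six]
      simpa [bas] using h5
  · refine ⟨1, one_ne_zero, fun g _ => ⟨1, ?_⟩⟩
    rw [ev_complex, Fin.sum_univ_six]
    simpa [bas] using h4

/-- conditions on the general `g` -/
structure Good (D : Dat) (g : Fin 3 → ℂ) : Prop where
  g2 : g 2 ≠ 0
  detN : (N1 D g).det ≠ 0
  detQ : (Q1 D g).det ≠ 0
  l2 : ∃ i, ev ℂ D.l2 (bas g i) ≠ 0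

theorem exists_good (hs : Sm D) (hl1 : D.l1 ≠ 0) (hl2 : D.l2 ≠ 0) :
    ∃ g : Fin 3 → ℂ, Good D g ∧ Good D ((2 : ℂ) • g) := by
  obtain ⟨P, hP0, hP⟩ := exists_l2 hl2
  set Q : R3 := X 2 * (N1 D (X : Fin 3 → R3)).det * (Q1 D (X : Fin 3 → R3)).det * P with hQ
  have hQ0 : Q ≠ 0 := mul_ne_zero (mul_ne_zero (mul_ne_zero (X_ne_zero 2) (detN_ne hs hl1))
    (detQ_ne hs)) hP0
  have hgood : ∀ g, eval g Q ≠ 0 → Good D g := by
    intro g hg
    rw [hQ, map_mul, map_mul, map_mul, eval_X, map_N1, map_Q1] at hg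
    have h1 := left_ne_zero_of_mul hg
    have h2 := left_ne_zero_of_mul h1
    exact ⟨left_ne_zero_of_mul h2, right_ne_zero_of_mul h2, right_ne_zero_of_mul h1,
      hP g (right_ne_zero_of_mul hg)⟩
  set Q' : R3 := aeval (fun i => C 2 * X i : Fin 3 → R3) Q with hQ'
  have hQe : ∀ g, eval g Q' = eval ((2 : ℂ) • g) Q := by
    intro g
    have h1 : (aeval g : R3 →ₐ[ℂ] ℂ).comp (aeval (fun i => C 2 * X i : Fin 3 → R3)) =
        aeval ((2 : ℂ) • g) := by
      apply MvPolynomial.algHom_ext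
      intro i
      simp
    have h2 := DFunLike.congr_fun h1 Q
    rw [AlgHom.comp_apply, aeval_eq_eval, aeval_eq_eval] at h2
    exact h2
  have hQ'0 : Q' ≠ 0 := by
    intro h0
    apply hQ0
    apply MvPolynomial.funext
    intro g
    have h1 := hQe ((1 / 2 : ℂ) • g)
    rw [h0, map_zero, smul_smul] at h1
    norm_num at h1
    rw [← h1, map_zero]
  obtain ⟨g, hg⟩ : ∃ g, eval g (Q * Q') ≠ 0 := by
    by_contra hc
    push Not at hc
    apply mul_ne_zero hQ0 hQ'0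
    apply MvPolynomial.funext
    intro g
    rw [hc g, map_zero]
  rw [map_mul, hQe] at hg
  exact ⟨g, hgood g (left_ne_zero_of_mul hg), hgood _ (right_ne_zero_of_mul hg)⟩

/-- the bad points over `g` -/
def Bad (D : Dat) (g : Fin 3 → ℂ) (z : Fin 6 → ℂ) : Prop :=
  z ≠ 0 ∧ B0 z = z 3 • g ∧ (∃ a : ℂ, B1 D z = a • g) ∧ (∃ b : ℂ, B2 D z = b • g) ∧
    ev ℂ D.l2 z = 0

theorem dt_prop (g v : Fin 3 → ℂ) (a b : ℂ) : dt v (a • g) (b • g) = 0 := by
  simp only [dt, Pi.smul_apply, smul_eq_mul]; ring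

theorem dt_prop' (g v : Fin 3 → ℂ) (a b : ℂ) : dt (a • g) v (b • g) = 0 := by
  simp only [dt, Pi.smul_apply, smul_eq_mul]; ring

theorem dt_prop'' (g v : Fin 3 → ℂ) (a b : ℂ) : dt (a • g) (b • g) v = 0 := by
  simp only [dt, Pi.smul_apply, smul_eq_mul]; ring

/-- a point at which the matrix has rank one and two of the linear forms vanish -/
theorem Sm.rank_one (hs : Sm D) (g : Fin 3 → ℂ) (z : Fin 6 → ℂ) (a b c : ℂ) (h0 : B0 z = a • g)
    (h1 : B1 D z = b • g) (h2 : B2 D z = c • g) (h3 : z 3 = 0) (h4 : ev ℂ D.l2 z = 0) :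
    z = 0 := by
  by_contra hz
  obtain ⟨v, hv⟩ := hs z hz
  apply hv
  rw [dF, h0, h1, h2, h3, h4, dt_prop, dt_prop', dt_prop'']
  ring

theorem Sm.rank_one' (hs : Sm D) (g : Fin 3 → ℂ) (z : Fin 6 → ℂ) (a b c : ℂ) (h0 : B0 z = a • g)
    (h1 : B1 D z = b • g) (h2 : B2 D z = c • g) (h3 : ev ℂ D.l1 z = 0) (h4 : ev ℂ D.l2 z = 0) :
    z = 0 := by
  by_contra hz
  obtain ⟨v, hv⟩ := hs z hz
  apply hv
  rw [dF, h0, h1, h2, h3, h4, dt_prop, dt_prop', dt_prop'']
  ring

/-- **(ND3)** -/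
theorem nd3 (hs : Sm D) {g : Fin 3 → ℂ} (hg : g ≠ 0) {z w : Fin 6 → ℂ} (hz : Bad D g z)
    (hw : Bad D ((2 : ℂ) • g) w) : False := by
  obtain ⟨hz0, z0, ⟨a, z1⟩, ⟨b, z2⟩, zl⟩ := hz
  obtain ⟨hw0, w0, ⟨a', w1⟩, ⟨b', w2⟩, wl⟩ := hw
  rw [smul_smul] at w0 w1 w2
  have hz3 : z 3 ≠ 0 := fun h => hz0 (hs.rank_one g z _ _ _ z0 z1 z2 h zl)
  have hw3 : w 3 ≠ 0 := fun h => hw0 (hs.rank_one g w _ _ _ w0 w1 w2 h wl)
  set y : Fin 6 → ℂ := w 3 • z + (- z 3) • w with hy
  have y0 : B0 y = (- (z 3 * w 3)) • g := by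
    rw [hy, B0_add, B0_smul, B0_smul, z0, w0, smul_smul, smul_smul, ← add_smul]
    congr 1; ring
  have y1 : B1 D y = (w 3 * a - z 3 * (a' * 2)) • g := by
    rw [hy, B1_add, B1_smul, B1_smul, z1, w1, smul_smul, smul_smul, ← add_smul]
    congr 1; ring
  have y2 : B2 D y = (w 3 * b - z 3 * (b' * 2)) • g := by
    rw [hy, B2_add, B2_smul, B2_smul, z2, w2, smul_smul, smul_smul, ← add_smul]
    congr 1; ring
  have y3 : y 3 = 0 := by
    simp only [hy, Pi.add_apply, Pi.smul_apply, smul_eq_mul]; ring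
  have yl : ev ℂ D.l2 y = 0 := by
    rw [hy, map_add, map_smul, map_smul, zl, wl]; simp
  have h := hs.rank_one g y _ _ _ y0 y1 y2 y3 yl
  rw [h] at y0
  have h1 : (- (z 3 * w 3)) • g = 0 := by
    rw [← y0]; funext i; fin_cases i <;> simp [B0]
  rcases smul_eq_zero.mp h1 with h2 | h2
  · exact mul_ne_zero hz3 hw3 (neg_eq_zero.mp h2)
  · exact hg h2

/-- the choice of `g` -/
theorem exists_g (hs : Sm D) (hl1 : D.l1 ≠ 0) (hl2 : D.l2 ≠ 0) :
    ∃ g : Fin 3 → ℂ, Good D g ∧ ∀ z, ¬ Bad D g z := by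
  obtain ⟨g, h1, h2⟩ := exists_good hs hl1 hl2
  by_cases h : ∃ z, Bad D g z
  · obtain ⟨z, hz⟩ := h
    refine ⟨(2 : ℂ) • g, h2, fun w hw => nd3 hs ?_ hz hw⟩
    rintro rfl
    exact h1.g2 rfl
  · push Not at h
    exact ⟨g, h1, h⟩

end Pool.Agent.Helper54.GE
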