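import Pool.Agent.Helper54.GE.NDf

set_option autoImplicit false
set_option linter.unusedVariables false
set_option linter.unusedSectionVars false

/-!
Gale duality of cubic fourfolds: nondegenerate points, seventh part (the dual point and the
uniqueness).
-/

namespace Pool.Agent.Helper54.GE

open MvPolynomial Matrix Module

variable {D : Dat}

theorem exists_om {g : Fin 3 → ℂ} {z : Fin 6 → ℂ} (h : B0 z = z 3 • g) :
    z = om g ![z 3, z 4, z 5] := by
  have h0 : z 0 = z 3 * g 0 := congrFun h 0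
  have h1 : z 1 = z 3 * g 1 := congrFun h 1
  have h2 : z 2 = z 3 * g 2 := congrFun h 2
  funext i
  fin_cases i
  · exact h0
  · exact h1
  · exact h2
  · rfl
  · rfl
  · rfl

theorem B0_om (g s : Fin 3 → ℂ) : B0 (om g s) = (om g s) 3 • g := by
  funext i; fin_cases i <;> simp [B0, om]

/-- a vector orthogonal to three independent vectors -/
theorem eq_zero_of_dt {a b c x : Fin 3 → ℂ} (h : dt a b c ≠ 0) (ha : ∑ i, x i * a i = 0)
    (hb : ∑ i, x i * b i = 0) (hc : ∑ i, x i * c i = 0) : x = 0 := by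
  rw [Fin.sum_univ_three] at ha hb hc
  have h0 : dt a b c * x 0 = 0 := by
    rw [dt]
    linear_combination (b 1 * c 2 - b 2 * c 1) * ha + (c 1 * a 2 - c 2 * a 1) * hb +
      (a 1 * b 2 - a 2 * b 1) * hc
  have h1 : dt a b c * x 1 = 0 := by
    rw [dt]
    linear_combination (b 2 * c 0 - b 0 * c 2) * ha + (c 2 * a 0 - c 0 * a 2) * hb +
      (a 2 * b 0 - a 0 * b 2) * hc
  have h2 : dt a b c * x 2 = 0 := by
    rw [dt]
    linear_combination (b 0 * c 1 - b 1 * c 0) * ha + (c 0 * a 1 - c 1 * a 0) * hb +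
      (a 0 * b 1 - a 1 * b 0) * hc
  funext i
  fin_cases i
  · exact (mul_eq_zero.mp h0).resolve_left h
  · exact (mul_eq_zero.mp h1).resolve_left h
  · exact (mul_eq_zero.mp h2).resolve_left h

theorem parallel_of_cond {g : Fin 3 → ℂ} (hg : g 2 ≠ 0) {z : Fin 6 → ℂ}
    (h1 : cond D g z 1 = 0) (h2 : cond D g z 2 = 0) : B1 D z = (B1 D z 2 / g 2) • g := by
  have e1 : g 1 * B1 D z 2 - g 2 * B1 D z 1 = 0 := h1
  have e2 : g 2 * B1 D z 0 - g 0 * B1 D z 2 = 0 := h2
  funext i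
  fin_cases i
  · simp only [Fin.zero_eta, Pi.smul_apply, smul_eq_mul]; field_simp; linear_combination e2
  · simp only [Fin.mk_one, Pi.smul_apply, smul_eq_mul]; field_simp; linear_combination -e1
  · simp only [Fin.reduceFinMk, Pi.smul_apply, smul_eq_mul]; field_simp

/-- solvability of the three conditions over `g` -/
theorem exists_cond {g : Fin 3 → ℂ} (hN : (N1 D g).det ≠ 0) (y : Fin 3 → ℂ) :
    ∃ s, cond D g (om g s) = y := by
  have hu : IsUnit (N1 D g).det := isUnit_iff_ne_zero.mpr hN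
  refine ⟨(N1 D g)⁻¹ *ᵥ y, ?_⟩
  rw [← N1_mulVec, Matrix.mulVec_mulVec, Matrix.mul_nonsing_inv _ hu, Matrix.one_mulVec]

theorem cond_inj {g : Fin 3 → ℂ} (hN : (N1 D g).det ≠ 0) {s : Fin 3 → ℂ}
    (h : cond D g (om g s) = 0) : s = 0 := by
  rw [← N1_mulVec] at h
  by_contra hs
  exact hN (Matrix.exists_mulVec_eq_zero_iff.mp ⟨s, hs, h⟩)

/-- the functional `v ↦ det (g, b₁(z), b₂(v)) + l₁(z) l₂(v)` -/
def psi (D : Dat) (g : Fin 3 → ℂ) (z v : Fin 6 → ℂ) : ℂ :=
  dt g (B1 D z) (B2 D v) + ev ℂ D.l1 z * ev ℂ D.l2 v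

theorem psi_add_left (g : Fin 3 → ℂ) (z w v : Fin 6 → ℂ) :
    psi D g (z + w) v = psi D g z v + psi D g w v := by
  simp only [psi, B1_add, map_add, dt, Pi.add_apply]; ring

theorem psi_smul_left (g : Fin 3 → ℂ) (c : ℂ) (z v : Fin 6 → ℂ) :
    psi D g (c • z) v = c * psi D g z v := by
  simp only [psi, B1_smul, map_smul, dt, Pi.smul_apply, smul_eq_mul]; ring

theorem psi_add_right (g : Fin 3 → ℂ) (z w v : Fin 6 → ℂ) :
    psi D g z (w + v) = psi D g z w + psi D g z v := by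
  simp only [psi, B2_add, map_add, dt, Pi.add_apply]; ring

theorem psi_smul_right (g : Fin 3 → ℂ) (c : ℂ) (z v : Fin 6 → ℂ) :
    psi D g z (c • v) = c * psi D g z v := by
  simp only [psi, B2_smul, map_smul, dt, Pi.smul_apply, smul_eq_mul]; ring

theorem psi_self (g : Fin 3 → ℂ) (z : Fin 6 → ℂ) : psi D g z z = qg D g z := rfl

/-- if `psi` vanishes at all points over `g` then the second argument is a bad point -/
theorem psi_zero {g : Fin 3 → ℂ} (hg : Good D g) {v : Fin 6 → ℂ}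
    (h : ∀ s, psi D g (om g s) v = 0) {ε : Fin 3 → ℂ} (hε : cond D g (om g ε) = ![1, 0, 0]) :
    ev ℂ D.l2 v = 0 ∧ B2 D v = (B2 D v 2 / g 2) • g := by
  have hg2 := hg.g2
  have h1 := h ε
  have c0 : ev ℂ D.l1 (om g ε) = 1 := by have := congrFun hε 0; simpa [cond] using this
  have c1 : cond D g (om g ε) 1 = 0 := by rw [hε]; rfl
  have c2 : cond D g (om g ε) 2 = 0 := by rw [hε]; rfl
  have h2 : ev ℂ D.l2 v = 0 := by
    rw [psi, c0, parallel_of_cond hg2 c1 c2] at h1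
    have h3 : dt g ((B1 D (om g ε) 2 / g 2) • g) (B2 D v) = 0 := by
      simp only [dt, Pi.smul_apply, smul_eq_mul]; ring
    rw [h3] at h1
    linear_combination h1
  refine ⟨h2, ?_⟩
  obtain ⟨s1, hs1⟩ := exists_cond hg.detN ![0, 1, 0]
  obtain ⟨s2, hs2⟩ := exists_cond hg.detN ![0, 0, 1]
  have a1 := h s1
  have a2 := h s2
  have p1 : g 1 * B1 D (om g s1) 2 - g 2 * B1 D (om g s1) 1 = 1 := by
    have := congrFun hs1 1; simpa [cond] using this
  have p2 : g 2 * B1 D (om g s1) 0 - g 0 * B1 D (om g s1) 2 = 0 := by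
    have := congrFun hs1 2; simpa [cond] using this
  have q1 : g 1 * B1 D (om g s2) 2 - g 2 * B1 D (om g s2) 1 = 0 := by
    have := congrFun hs2 1; simpa [cond] using this
  have q2 : g 2 * B1 D (om g s2) 0 - g 0 * B1 D (om g s2) 2 = 1 := by
    have := congrFun hs2 2; simpa [cond] using this
  rw [psi, h2, mul_zero, add_zero, dt] at a1 a2
  have b0 : g 2 * B2 D v 0 = g 0 * B2 D v 2 := by
    linear_combination g 2 * a1 - (B2 D v 0 * g 2 - B2 D v 2 * g 0) * p1 -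
      (B2 D v 1 * g 2 - B2 D v 2 * g 1) * p2
  have b1 : g 2 * B2 D v 1 = g 1 * B2 D v 2 := by
    linear_combination g 2 * a2 - (B2 D v 0 * g 2 - B2 D v 2 * g 0) * q1 -
      (B2 D v 1 * g 2 - B2 D v 2 * g 1) * q2
  funext i
  fin_cases i
  · simp only [Fin.zero_eta, Pi.smul_apply, smul_eq_mul]; field_simp; linear_combination b0
  · simp only [Fin.mk_one, Pi.smul_apply, smul_eq_mul]; field_simp; linear_combination b1
  · simp only [Fin.reduceFinMk, Pi.smul_apply, smul_eq_mul]; field_simp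

/-- the good point on the conic over `g` -/
theorem exists_point (hiso : ∀ (Q : Matrix (Fin 3) (Fin 3) ℂ), Q.IsSymm → Q.det ≠ 0 →
      ∀ f : Fin 5 → Fin 3 → ℂ, (∀ i, f i ≠ 0) →
        ∃ s : Fin 3 → ℂ, (∑ i, ∑ j, Q i j * s i * s j) = 0 ∧ ∀ i, ∑ j, f i j * s j ≠ 0)
    (hs : Sm D) {g : Fin 3 → ℂ} (hg : Good D g) (hb : ∀ z, ¬ Bad D g z) :
    ∃ z : Fin 6 → ℂ, B0 z = z 3 • g ∧ qg D g z = 0 ∧ z 3 ≠ 0 ∧ ev ℂ D.l1 z ≠ 0 ∧
      ev ℂ D.l2 z ≠ 0 ∧
      (∃ ε : Fin 6 → ℂ, B0 ε = ε 3 • g ∧ ev ℂ D.l1 ε = 1 ∧ (∃ a : ℂ, B1 D ε = a • g) ∧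
        psi D g z ε ≠ 0) ∧
      (∃ κ : Fin 6 → ℂ, (∃ τ : ℂ, B0 κ = τ • g) ∧ ev ℂ D.l1 κ = 0 ∧ (∃ a : ℂ, B1 D κ = a • g) ∧
        psi D g z κ ≠ 0) := by
  have hg2 := hg.g2
  obtain ⟨ε, hε⟩ := exists_cond hg.detN ![1, 0, 0]
  have c0 : ev ℂ D.l1 (om g ε) = 1 := by have := congrFun hε 0; simpa [cond] using this
  have c1 : cond D g (om g ε) 1 = 0 := by rw [hε]; rfl
  have c2 : cond D g (om g ε) 2 = 0 := by rw [hε]; rfl
  have hε1 := parallel_of_cond hg2 c1 c2
  -- the point `κ`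
  set e0 : Fin 6 → ℂ := ![g 0, g 1, g 2, 0, 0, 0] with he0
  obtain ⟨s0, hs0⟩ := exists_cond hg.detN (- cond D g e0)
  set κ : Fin 6 → ℂ := e0 + om g s0 with hκ
  have hκc : cond D g κ = 0 := by rw [hκ, cond_add, hs0]; simp
  have hκ0 : B0 κ = (1 + s0 0) • g := by
    rw [hκ]; funext i
    fin_cases i <;> simp [B0, om, he0] <;> ring
  have hκ3 : κ 3 = s0 0 := by simp [hκ, he0, om]
  have hκne : κ ≠ 0 := by
    intro h
    have h1 : s0 0 = 0 := by rw [← hκ3, h]; rfl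
    have h2 : (B0 κ) 2 = 0 := by rw [h]; simp [B0]
    rw [hκ0, h1] at h2
    simp at h2
    exact hg2 h2
  have hκ1 : ev ℂ D.l1 κ = 0 := by have := congrFun hκc 0; simpa [cond] using this
  have hκ2 := parallel_of_cond (D := D) hg2 (congrFun hκc 1) (congrFun hκc 2)
  -- the five linear forms
  let L : Fin 5 → (Fin 6 → ℂ) → ℂ := ![fun z => z 3, fun z => ev ℂ D.l1 z, fun z => ev ℂ D.l2 z,
    fun z => psi D g z (om g ε), fun z => psi D g z κ]
  have hL : ∀ i (s : Fin 3 → ℂ), ∑ j, L i (bas g j) * s j = L i (om g s) := by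
    intro i s
    rw [om_eq, Fin.sum_univ_three]
    fin_cases i
    · simp only [L, Fin.zero_eta, Matrix.cons_val_zero, Pi.add_apply, Pi.smul_apply, smul_eq_mul]
      ring
    · simp only [L, Fin.mk_one, Matrix.cons_val_one, Matrix.cons_val_zero, map_add, map_smul,
        smul_eq_mul]
      ring
    · simp only [L, Fin.reduceFinMk, Matrix.cons_val, map_add, map_smul, smul_eq_mul]
      ring
    · simp only [L, Fin.reduceFinMk, Matrix.cons_val, psi_add_left, psi_smul_left]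
      ring
    · simp only [L, Fin.reduceFinMk, Matrix.cons_val, psi_add_left, psi_smul_left]
      ring
  have hLne : ∀ i, (fun j => L i (bas g j)) ≠ 0 := by
    intro i h0
    have hz : ∀ s, L i (om g s) = 0 := by
      intro s
      rw [← hL]
      refine Finset.sum_eq_zero fun j _ => ?_
      have := congrFun h0 j
      simp only [Pi.zero_apply] at this
      rw [this, zero_mul]
    fin_cases i
    · have h1 : (om g ![1, 0, 0] : Fin 6 → ℂ) 3 = 0 := hz ![1, 0, 0]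
      simp [om] at h1
    · have h1 : ev ℂ D.l1 (om g ε) = 0 := hz ε
      rw [c0] at h1
      exact one_ne_zero h1
    · obtain ⟨i, hi⟩ := hg.l2
      exact hi (congrFun h0 i)
    · have h1 : ∀ s, psi D g (om g s) (om g ε) = 0 := hz
      obtain ⟨h2, h3⟩ := psi_zero hg h1 hε
      refine hb (om g ε) ⟨?_, B0_om g ε, ⟨_, hε1⟩, ⟨_, h3⟩, h2⟩
      intro h4
      rw [h4, map_zero] at c0
      exact zero_ne_one c0
    · have h1 : ∀ s, psi D g (om g s) κ = 0 := hz
      obtain ⟨h2, h3⟩ := psi_zero hg h1 hε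
      exact hκne (hs.rank_one' g κ _ _ _ hκ0 hκ2 h3 hκ1 h2)
  have hsymm : (Q1 D g).IsSymm := by
    ext i j
    rw [Matrix.transpose_apply, Q1, Matrix.of_apply, Matrix.of_apply, bg_symm]
  obtain ⟨s, hs1, hs2⟩ := hiso (Q1 D g) hsymm hg.detQ _ hLne
  have hq : bg D g (om g s) (om g s) = 0 := by
    rw [← hs1]
    conv_lhs => rw [bg_symm]
    have e1 : ∀ v : Fin 6 → ℂ, bg D g v (om g s) = ∑ j, bg D g v (bas g j) * s j := by
      intro v
      rw [om_eq, bg_add_right, bg_add_right, bg_smul_right, bg_smul_right, bg_smul_right,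
        Fin.sum_univ_three]
      ring
    rw [e1]
    have e2 : ∀ j, bg D g (om g s) (bas g j) = ∑ i, bg D g (bas g j) (bas g i) * s i := by
      intro j; rw [bg_symm, e1]
    rw [Finset.sum_congr rfl fun j _ => by rw [e2 j]]
    refine Finset.sum_congr rfl fun i _ => ?_
    rw [Finset.sum_mul]
    refine Finset.sum_congr rfl fun j _ => ?_
    rw [Q1, Matrix.of_apply]; ring
  have hq' : qg D g (om g s) = 0 := by
    rw [bg_self] at hq
    exact (mul_eq_zero.mp hq).resolve_left two_ne_zero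
  have hf : ∀ i, L i (om g s) ≠ 0 := fun i => by rw [← hL]; exact hs2 i
  exact ⟨om g s, B0_om g s, hq', hf 0, hf 1, hf 2, ⟨om g ε, B0_om g ε, c0, ⟨_, hε1⟩, hf 3⟩,
    ⟨κ, ⟨_, hκ0⟩, hκ1, ⟨_, hκ2⟩, hf 4⟩⟩

end Pool.Agent.Helper54.GE
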